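import Pool.Agent.H96.NU.Pots
import Pool.Agent.H96.UO.Final

/-!
# Exact optimality: the theorem
-/

set_option autoImplicit false
set_option linter.unusedSectionVars false

open Real Set
open scoped ENNReal

namespace Pool.Agent.H96.NU

open Pool.Agent.H96.UO hiding first_shell Steep Steep.scale steep

section

variable {L : Submodule ℤ ℂ} [DiscreteTopology L] [IsZLattice ℝ L] {N : ℕ} {x : Fin N → ℂ}

/-- **Steep universal optimality of the hexagonal lattice.** -/
theorem steep (hN : 0 < N) (hx : ∀ i j, x i - x j ∈ L → i = j) {g : ℝ → ℝ} {A : ℝ}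
    (hA : A = 2 / √3 * (ZLattice.covolume L / N)) (hg : Steep g A) :
    hexEnergy g A ≤ energy L x g ∧ hexEnergy g A ≠ ⊤ ∧
      (energy L x g = hexEnergy g A ↔ IsHex L x A) := by
  have hN' : (N : ℝ≥0∞) ≠ 0 := by exact_mod_cast hN.ne'
  have hNR : (0:ℝ) < N := by exact_mod_cast hN
  have hcpos := ZLattice.covolume_pos L
  have s3 : √3 * √3 = 3 := mul_self_sqrt (by norm_num)
  have s3p : 0 < √3 := by positivity
  have hA0 : 0 < A := by rw [hA]; positivity
  set c : ℝ := √(A / 3) with hcdef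
  have hc0 : 0 < c := by rw [hcdef]; positivity
  have hc : c ≠ 0 := hc0.ne'
  have hc' : (c:ℂ) ≠ 0 := by exact_mod_cast hc
  have hc2 : A / 3 = c ^ 2 := by rw [hcdef, sq_sqrt (by positivity)]
  set g' : ℝ → ℝ := fun t => g (A / 3 * t) with hg'
  have hst := hg.scale hA0
  obtain ⟨s, hs, hpot⟩ := exists_pt hst
  set L' := ZLattice.comap ℝ L (mulE c hc).toLinearMap with hL'
  set x' : Fin N → ℂ := fun i => (c:ℂ)⁻¹ * x i with hx'
  have hinj' : ∀ i j, x' i - x' j ∈ L' → i = j := by
    intro i j h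
    apply hx
    have h1 := (mem_scale hc).mp h
    have : (c:ℂ) * (x' i - x' j) = x i - x j := by
      simp only [hx']
      field_simp
    rwa [this] at h1
  have hcov : ZLattice.covolume L' = (Fintype.card (Fin N) : ℝ) * (3 * √3 / 2) := by
    have h1 := covolume_scale (L := L) hc
    rw [← hc2] at h1
    rw [Fintype.card_fin]
    have h2 : ZLattice.covolume L' * (A / 3) = ZLattice.covolume L := h1
    have h3 : ZLattice.covolume L = (N * (3 * √3 / 2)) * (A / 3) := by
      rw [hA]
      field_simp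
    rw [h3] at h2
    exact mul_right_cancel₀ (by positivity) h2
  obtain ⟨K, hS, hK⟩ := norm_ineq' hinj' hcov hpot hs
  have hfin := hex_finite' hpot
  have e1 : ∑' p : ℤ × ℤ, (if p = 0 then 0 else ENNReal.ofReal (g' (3 * qf p.1 p.2))) =
      hexEnergy g A := by
    unfold hexEnergy
    refine tsum_congr fun p => ?_
    have : A / 3 * (3 * (qf p.1 p.2 : ℝ)) = A * ((p.1 : ℝ) ^ 2 + p.1 * p.2 + (p.2 : ℝ) ^ 2) := by
      unfold qf
      push_cast
      ring
    simp only [hg', this]
  have e2 : ∑ i, ∑ j, ∑' v : L', (if x' i - x' j + v = 0 then 0 else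
        ENNReal.ofReal (g' (‖x' i - x' j + v‖ ^ 2))) =
      ∑ i, ∑ j, ∑' v : L, (if x i - x j + v = 0 then 0 else
        ENNReal.ofReal (g (‖x i - x j + v‖ ^ 2))) :=
    Finset.sum_congr rfl fun i _ => Finset.sum_congr rfl fun j _ => scale_sum hc hc2 g i j
  rw [e1] at hfin
  rw [e1, e2, Fintype.card_fin] at hK
  have hle : (N : ℝ≥0∞) * hexEnergy g A ≤ ∑ i, ∑ j, ∑' v : L, (if x i - x j + v = 0 then 0 else
        ENNReal.ofReal (g (‖x i - x j + v‖ ^ 2))) := le_trans le_self_add hK
  refine ⟨?_, hfin, ⟨fun heq => ?_, energy_of_isHex hN hx g hA0⟩⟩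
  · unfold energy
    rw [ENNReal.le_div_iff_mul_le (Or.inl hN') (Or.inl (ENNReal.natCast_ne_top N)), mul_comm]
    exact hle
  · -- equality
    have h1 : ∑ i, ∑ j, ∑' v : L, (if x i - x j + v = 0 then 0 else
        ENNReal.ofReal (g (‖x i - x j + v‖ ^ 2))) = N * hexEnergy g A := by
      rw [← heq]
      unfold energy
      rw [ENNReal.mul_div_cancel hN' (ENNReal.natCast_ne_top N)]
    rw [h1] at hK
    have hne : (N : ℝ≥0∞) * hexEnergy g A ≠ ⊤ := ENNReal.mul_ne_top (ENNReal.natCast_ne_top N) hfin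
    have h2 := ENNReal.le_of_add_le_add_left hne (hK.trans (le_of_eq (add_zero _).symm))
    have h3 := ENNReal.ofReal_eq_zero.mp (le_antisymm h2 zero_le)
    have hg3 : 0 < g' 3 := hst.pos 3 (by norm_num)
    have hcK : (Fintype.card K : ℝ) ≤ (N : ℝ) := by
      rw [Fintype.card_coe]
      have := Finset.card_le_univ K
      rw [Fintype.card_fin] at this
      exact_mod_cast this
    have hS2 := S2_nonneg L' (fun i : K => x' i)
    have hnb : (0:ℝ) ≤ nbad L' (fun i : K => x' i) := by positivity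
    have h4 : ((N : ℝ) - Fintype.card K) + nbad L' (fun i : K => x' i) +
        S2 L' (fun i : K => x' i) ≤ 0 := by
      by_contra hcon
      push Not at hcon
      have : 0 < s / 100000 * (((N : ℝ) - Fintype.card K) + nbad L' (fun i : K => x' i) +
        S2 L' (fun i : K => x' i)) * g' 3 := by positivity
      linarith
    have h5 : nbad L' (fun i : K => x' i) = 0 := by
      have h5 : (nbad L' (fun i : K => x' i) : ℝ) ≤ 0 := by linarith
      have h5' : nbad L' (fun i : K => x' i) ≤ 0 := by exact_mod_cast h5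
      omega
    have h6 : S2 L' (fun i : K => x' i) = 0 := by linarith
    have h7 : K = Finset.univ := by
      rw [← Finset.card_eq_iff_eq_univ, Fintype.card_fin]
      have h8 : (N:ℝ) ≤ Fintype.card K := by linarith
      rw [Fintype.card_coe] at h8
      have h9 := Finset.card_le_univ K
      rw [Fintype.card_fin] at h9
      have h10 : N ≤ K.card := by exact_mod_cast h8
      omega
    have hmem : ∀ i, i ∈ K := by intro i; rw [h7]; exact Finset.mem_univ i
    obtain ⟨u, hu, hV⟩ := rigid hS h5 h6 ⟨⟨0, hN⟩, hmem _⟩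
    refine ⟨x ⟨0, hN⟩, c * u, ?_, fun z => ?_⟩
    · rw [norm_mul, mul_pow, hu, Complex.norm_real, norm_eq_abs, sq_abs, ← hc2]
      ring
    · have h8 := hV ((c:ℂ)⁻¹ * z - x' ⟨0, hN⟩)
      show (∃ i, z - x i ∈ L) ↔ ∃ a b : ℤ, z = x ⟨0, hN⟩ + c * u * (a + b * om)
      constructor
      · rintro ⟨j, hj⟩
        obtain ⟨a, b, hab⟩ := h8.mp ⟨⟨j, hmem j⟩, by
          show _ ∈ L'
          rw [hL', mem_scale hc]
          have : (c:ℂ) * ((c:ℂ)⁻¹ * z - x' ⟨0, hN⟩ - (x' j - x' ⟨0, hN⟩)) = z - x j := by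
            simp only [hx']
            field_simp
            ring
          rw [this]
          exact hj⟩
        refine ⟨a, b, ?_⟩
        have h9 : z = x ⟨0, hN⟩ + c * ((c:ℂ)⁻¹ * z - x' ⟨0, hN⟩) := by
          simp only [hx']
          field_simp
          ring
        rw [h9, hab]
        ring
      · rintro ⟨a, b, hab⟩
        obtain ⟨⟨j, hjK⟩, hj⟩ := h8.mpr ⟨a, b, by
          rw [hab]
          simp only [hx']
          field_simp
          ring⟩
        refine ⟨j, ?_⟩
        have hj' : (c:ℂ)⁻¹ * z - x' ⟨0, hN⟩ - (x' j - x' ⟨0, hN⟩) ∈ L' := hj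
        rw [hL', mem_scale hc] at hj'
        have : (c:ℂ) * ((c:ℂ)⁻¹ * z - x' ⟨0, hN⟩ - (x' j - x' ⟨0, hN⟩)) = z - x j := by
          simp only [hx']
          field_simp
          ring
        rwa [this] at hj'

end


/-- Gaussians are steep -/
theorem steep_gauss {α A : ℝ} (hA : 0 < A) (h : 1813 / 100 ≤ α * A) :
    Steep (fun t => exp (-α * t)) A := by
  refine ⟨fun t _ => exp_pos _, ?_, ?_, ?_⟩
  · refine ⟨convex_Ioi 0, fun x _ y _ a b _ _ _ => ?_⟩
    simp only [log_exp, smul_eq_mul]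
    apply le_of_eq
    ring
  · intro t ht htA
    rw [← exp_add]
    apply exp_le_exp.mpr
    have h1 : 0 ≤ 1 - t / A := by
      rw [sub_nonneg, div_le_one hA]; exact htA
    have h2 : 1813 / 100 * (1 - t / A) ≤ α * A * (1 - t / A) := mul_le_mul_of_nonneg_right h h1
    have h3 : α * A * (1 - t / A) = α * A - α * t := by field_simp
    linarith
  · intro q hq
    have hq3 : (3:ℝ) ≤ q := by exact_mod_cast hq
    have hq0 : (0:ℝ) < q := by linarith
    have h1 : (q:ℝ) ^ 28 = exp (28 * log q) := by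
      rw [mul_comm, exp_mul, exp_log hq0, show (28:ℝ) = ((28:ℕ):ℝ) by norm_num, rpow_natCast]
    rw [h1, ← exp_add]
    apply exp_le_exp.mpr
    -- `28 log q ≤ 18.13 (q - 1)`
    have h3 : log 3 ≤ 11 / 10 := by
      rw [log_le_iff_le_exp (by norm_num)]
      refine le_trans ?_ (sum_le_exp_of_nonneg (x := 11 / 10) (by norm_num) 8)
      norm_num [Finset.sum_range_succ, Nat.factorial]
    have h4 : log q ≤ log 3 + (q / 3 - 1) := by
      have h5 : log (q / 3) ≤ q / 3 - 1 := log_le_sub_one_of_pos (by positivity)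
      rw [log_div hq0.ne' (by norm_num)] at h5
      linarith
    have h5 : 28 * log q ≤ 1813 / 100 * (q - 1) := by linarith
    have h6 : 1813 / 100 * ((q:ℝ) - 1) ≤ α * A * (q - 1) :=
      mul_le_mul_of_nonneg_right h (by linarith)
    linarith

/-- powers are steep -/
theorem steep_rpow {s A : ℝ} (hs : 56 ≤ s) (hA : 0 < A) : Steep (fun t => t ^ (-s / 2)) A := by
  refine ⟨fun t ht => rpow_pos_of_pos ht _, ?_, ?_, ?_⟩
  · have h1 : ConvexOn ℝ (Ioi 0) fun t : ℝ => (s / 2) * (-log t) := by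
      have h2 : ConvexOn ℝ (Ioi 0) (-log) := strictConcaveOn_log_Ioi.concaveOn.neg
      have := h2.smul (show (0:ℝ) ≤ s / 2 by linarith)
      exact this
    refine h1.congr fun t ht => ?_
    have ht' : (0:ℝ) < t := ht
    simp only
    rw [log_rpow ht']
    ring
  · intro t ht htA
    have h1 : ∀ u : ℝ, 0 < u → u ^ (-s / 2) = exp (-s / 2 * log u) := fun u hu => by
      rw [rpow_def_of_pos hu, mul_comm]
    rw [h1 A hA, h1 t ht, ← exp_add]
    apply exp_le_exp.mpr
    have h2 : log (t / A) ≤ t / A - 1 := log_le_sub_one_of_pos (by positivity)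
    rw [log_div ht.ne' hA.ne'] at h2
    have h3 : 0 ≤ 1 - t / A := by
      rw [sub_nonneg, div_le_one hA]; exact htA
    nlinarith
  · intro q hq
    have hq3 : (3:ℝ) ≤ q := by exact_mod_cast hq
    have hq0 : (0:ℝ) < q := by linarith
    rw [mul_rpow hq0.le hA.le]
    have h1 : (q:ℝ) ^ (-s / 2) * (q:ℝ) ^ 28 ≤ 1 := by
      rw [← rpow_natCast (q:ℝ) 28, ← rpow_add hq0]
      exact rpow_le_one_of_one_le_of_nonpos (by linarith) (by push_cast; linarith)
    have h2 : 0 < A ^ (-s / 2) := rpow_pos_of_pos hA _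
    nlinarith

end Pool.Agent.H96.NU
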