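import Pool.Agent.H96.NU.Sub
import Pool.Agent.H96.UO.Norm

/-!
# Exact optimality: arbitrary periodic configurations in the normalisation
-/

set_option autoImplicit false
set_option linter.unusedSectionVars false

open Real Set
open scoped ENNReal
open Equiv (Perm)

namespace Pool.Agent.H96.NU

open Pool.Agent.H96.UO hiding first_shell

section

variable {α : Type*} [Fintype α] [DecidableEq α] {L : Submodule ℤ ℂ} {x : α → ℂ}

theorem vec_sub_finset {K : Finset α} {i : K} {z : ℂ} (h : z ∈ Vec L (fun i : K => x i) i) :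
    z ∈ Vec L x i := by
  obtain ⟨j, hj⟩ := h
  exact ⟨j, hj⟩

variable [DiscreteTopology L] [IsZLattice ℝ L] {K2 : Finset α}
  {τ : Perm (K2 × Fin 6)}
  (hτ : ∀ f, Dom L (fun i : K2 => x i) f → τ f = nx L (fun i : K2 => x i) f)

include hτ in
/-- the energy of a point of the second part -/
theorem class_le' {i : K2} {Z : Finset ℂ} (hZ : ∀ z ∈ Z, z ∈ Vec L x i ∧ z ≠ 0 ∧ ‖z‖ < 2)
    (F : ℂ → ℝ≥0∞) (W : Finset (ℕ × ℕ)) (hW : ∀ v ∈ W, 1 ≤ v.1 ∧ v ≠ (1, 0)) :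
    ∑ z ∈ Z, F z + ∑ v ∈ W, ∑ k, (if (i, k) ∈ RS L (fun i : K2 => x i) τ v then
      F (dsp (V (sg K2) τ (dd L (fun i : K2 => x i)) v.1 v.2) (i, k)) else 0) ≤
      ∑' z, {z | z ∈ Vec L x i ∧ z ≠ 0}.indicator F z := by
  classical
  set B := (W ×ˢ (Finset.univ : Finset (Fin 6))).filter
    fun p => (i, p.2) ∈ RS L (fun i : K2 => x i) τ p.1 with hB
  set φ : (ℕ × ℕ) × Fin 6 → ℂ :=
    fun p => dsp (V (sg K2) τ (dd L (fun i : K2 => x i)) p.1.1 p.1.2) (i, p.2) with hφ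
  have hBmem : ∀ p ∈ B, (1 ≤ p.1.1 ∧ p.1 ≠ (1, 0)) ∧ (i, p.2) ∈ RS L (fun i : K2 => x i) τ p.1 := by
    intro p hp
    rw [hB, Finset.mem_filter, Finset.mem_product] at hp
    exact ⟨hW _ hp.1.1, hp.2⟩
  have hinj : Set.InjOn φ B := by
    intro p hp p' hp' he
    obtain ⟨a, b⟩ := hBmem p hp
    obtain ⟨a', b'⟩ := hBmem p' hp'
    obtain ⟨c, d⟩ := RS_inj hτ a.1 a'.1 b b' he
    exact Prod.ext c d
  have hfar : ∀ p ∈ B, 2 ≤ ‖φ p‖ := fun p hp => by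
    obtain ⟨a, b⟩ := hBmem p hp
    exact RS_far hτ a.1 a.2 b
  have e1 : ∑ v ∈ W, ∑ k, (if (i, k) ∈ RS L (fun i : K2 => x i) τ v then
      F (dsp (V (sg K2) τ (dd L (fun i : K2 => x i)) v.1 v.2) (i, k)) else 0) =
      ∑ z ∈ B.image φ, F z := by
    rw [Finset.sum_image hinj, hB, Finset.sum_filter, Finset.sum_product]
  have hdisj : Disjoint Z (B.image φ) := by
    rw [Finset.disjoint_left]
    intro z hz hz'
    rw [Finset.mem_image] at hz'
    obtain ⟨p, hp, rfl⟩ := hz'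
    have h1 := hfar p hp
    have h2 := (hZ _ hz).2.2
    linarith
  rw [e1, ← Finset.sum_union hdisj]
  calc ∑ z ∈ Z ∪ B.image φ, F z
      = ∑ z ∈ Z ∪ B.image φ, {z | z ∈ Vec L x i ∧ z ≠ 0}.indicator F z := by
        refine Finset.sum_congr rfl fun z hz => ?_
        rw [Set.indicator_of_mem]
        rcases Finset.mem_union.mp hz with h | h
        · exact ⟨(hZ z h).1, (hZ z h).2.1⟩
        · rw [Finset.mem_image] at h
          obtain ⟨p, hp, rfl⟩ := h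
          obtain ⟨a, b⟩ := hBmem p hp
          refine ⟨vec_sub_finset (RS_mem hτ b), ?_⟩
          have := hfar p hp
          rw [← norm_pos_iff]
          linarith
    _ ≤ _ := ENNReal.sum_le_tsum _

end

section

variable {α : Type*} [Fintype α] [DecidableEq α] {L : Submodule ℤ ℂ} [DiscreteTopology L]
  [IsZLattice ℝ L] {x : α → ℂ} (hx : ∀ i j, x i - x j ∈ L → i = j)
  (hcov : ZLattice.covolume L = (Fintype.card α : ℝ) * (3 * √3 / 2))

include hx hcov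

theorem full_bound' {g : ℝ → ℝ} {s : ℝ} (hg : Pt g s) (hs : 151 / 25 ≤ s) : ∃ K : Finset α,
    Sep L (fun i : K => x i) ∧ ∀ W : Finset (ℕ × ℕ), (∀ v ∈ W, 1 ≤ v.1 ∧ v ≠ (1, 0)) →
    ENNReal.ofReal ((Fintype.card α : ℝ) * (6 * g 3 + ∑ v ∈ W, 6 * g (3 * qn v)) +
      s / 100000 * (((Fintype.card α : ℝ) - Fintype.card K) + nbad L (fun i : K => x i) +
        S2 L (fun i : K => x i)) * g 3) ≤
      ∑ i, ∑' z, {z | z ∈ Vec L x i ∧ z ≠ 0}.indicator
        (fun z => ENNReal.ofReal (g (‖z‖ ^ 2))) z := by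
  classical
  have hs0 : 0 < s := by linarith
  obtain ⟨K1, -, hK1, hrem1⟩ := exists_subset (L := L) (x := x) (fun z => 11 / 5 ≤ ‖z‖ ^ 2)
    (fun z h => by rw [norm_neg]; exact h) Finset.univ
  obtain ⟨K2, h21, hK2, hrem2⟩ := exists_subset (L := L) (x := x) (fun z => 17 / 10 ≤ ‖z‖)
    (fun z h => by rw [norm_neg]; exact h) K1
  have hS1 : Sp L (fun i : K1 => x i) :=
    ⟨fun a b hab => Subtype.ext (hx _ _ hab), fun a z ⟨b, hb⟩ hz0 => hK1 a a.2 b b.2 z hb hz0⟩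
  have hS2 : Sep L (fun i : K2 => x i) :=
    ⟨fun a b hab => Subtype.ext (hx _ _ hab), fun a z ⟨b, hb⟩ hz0 => hK2 a a.2 b b.2 z hb hz0⟩
  refine ⟨K2, hS2, fun W hW => ?_⟩
  have hfin1 : ∀ i : K1, {z : ℂ | z ∈ Vec L (fun i : K1 => x i) i ∧ ‖z‖ < 2}.Finite :=
    fun i => finite_vec i 2
  have hfin2 : ∀ i : K2, {z : ℂ | z ∈ Vec L (fun i : K2 => x i) i ∧ ‖z‖ < 2}.Finite :=
    fun i => finite_vec i 2
  set Z1 : K1 → Finset ℂ := fun i => (hfin1 i).toFinset.filter fun z => z ≠ 0 with hZ1def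
  set Z2 : K2 → Finset ℂ := fun i => (hfin2 i).toFinset.filter fun z => z ≠ 0 with hZ2def
  have hZ1 : ∀ i z, z ∈ Z1 i ↔ z ∈ Vec L (fun i : K1 => x i) i ∧ z ≠ 0 ∧ ‖z‖ < 2 := by
    intro i z
    simp only [hZ1def, Finset.mem_filter, Set.Finite.mem_toFinset, Set.mem_ofPred_eq]
    tauto
  have hZ2 : ∀ i z, z ∈ Z2 i ↔ z ∈ Vec L (fun i : K2 => x i) i ∧ z ≠ 0 ∧ ‖z‖ < 2 := by
    intro i z
    simp only [hZ2def, Finset.mem_filter, Set.Finite.mem_toFinset, Set.mem_ofPred_eq]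
    tauto
  obtain ⟨τ, hτ⟩ := hS2.exists_tau
  set N : ℝ := (Fintype.card α : ℝ) with hNdef
  have hcard2 : (Fintype.card K2 : ℝ) ≤ N := by
    rw [Fintype.card_coe, hNdef]
    exact_mod_cast Finset.card_le_univ K2
  have hcard1 : (Fintype.card K1 : ℝ) ≤ N := by
    rw [Fintype.card_coe, hNdef]
    exact_mod_cast Finset.card_le_univ K1
  have hg3 : 0 ≤ g 3 := hg.pos 3 (by norm_num)
  set F : ℂ → ℝ≥0∞ := fun z => ENNReal.ofReal (g (‖z‖ ^ 2)) with hF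
  -- real inequalities
  have hdef := defects_le h21 hS1 hS2 hrem2 hZ1 hZ2
  have hfs := first_shell hS1 hZ1 hcov hs
  rw [Fintype.card_coe] at hfs hcard1 hcard2
  set Θ : ℝ := (N - K2.card) + nbad L (fun i : K2 => x i) + S2 L (fun i : K2 => x i) with hΘ
  have hnb : (0:ℝ) ≤ nbad L (fun i : K2 => x i) := by positivity
  have hS2n := S2_nonneg L (fun i : K2 => x i)
  have hΘ0 : 0 ≤ Θ := by
    have : 0 ≤ N - K2.card := by linarith
    positivity
  have hΘle : Θ ≤ (N - K1.card) + 34010 * gain Z1 := by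
    rw [hΘ]; linarith
  have hA : g 3 * ∑ i, ∑ z ∈ Z1 i, exp (-(s * (‖z‖ ^ 2 - 3))) ≤
      ∑ i, ∑ z ∈ Z1 i, g (‖z‖ ^ 2) := by
    rw [Finset.mul_sum]
    refine Finset.sum_le_sum fun i _ => ?_
    rw [Finset.mul_sum]
    refine Finset.sum_le_sum fun z hz => hg.tan3 _ ?_
    have := norm_pos_iff.mpr ((hZ1 i z).mp hz).2.1
    positivity
  have hB : ∑ v ∈ W, g (3 * qn v) * (6 * N - 1050000 * s * ((v.1 + v.2 : ℕ) : ℝ) ^ 8 * Θ) ≤
      ∑ v ∈ W, ∑ f ∈ RS L (fun i : K2 => x i) τ v,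
        g (‖dsp (V (sg K2) τ (dd L (fun i : K2 => x i)) v.1 v.2) f‖ ^ 2) := by
    refine Finset.sum_le_sum fun v hv => ?_
    have := shell' hS2 hZ2 hcov (by rw [Fintype.card_coe]; exact hcard2) hτ hg
      (show (6:ℝ) ≤ s by linarith) (hW v hv).1 (hW v hv).2
    rw [Fintype.card_coe] at this
    exact this
  have hC := sum_tail_le' hg W hW
  have hD : ∑ v ∈ W, g (3 * qn v) * (6 * N - 1050000 * s * ((v.1 + v.2 : ℕ) : ℝ) ^ 8 * Θ) =
      N * ∑ v ∈ W, 6 * g (3 * qn v) -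
        1050000 * s * Θ * ∑ v ∈ W, g (3 * qn v) * ((v.1 + v.2 : ℕ) : ℝ) ^ 8 := by
    rw [Finset.mul_sum, Finset.mul_sum, ← Finset.sum_sub_distrib]
    refine Finset.sum_congr rfl fun v _ => ?_
    ring
  have hE : 1050000 * s * Θ * ∑ v ∈ W, g (3 * qn v) * ((v.1 + v.2 : ℕ) : ℝ) ^ 8 ≤
      s * Θ * g 3 * (1596 / 10 ^ 8) := by
    calc _ ≤ 1050000 * s * Θ * (g 3 * (152 / 10 ^ 13)) := by gcongr
      _ = s * Θ * g 3 * (1596 / 10 ^ 8) := by ring
  have hreal : N * (6 * g 3 + ∑ v ∈ W, 6 * g (3 * qn v)) +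
      s / 100000 * Θ * g 3 ≤
      (N - K1.card) * ((6 + 19 * s) * g 3) + (∑ i, ∑ z ∈ Z1 i, g (‖z‖ ^ 2) +
        ∑ v ∈ W, ∑ f ∈ RS L (fun i : K2 => x i) τ v,
        g (‖dsp (V (sg K2) τ (dd L (fun i : K2 => x i)) v.1 v.2) f‖ ^ 2)) := by
    have a1 := mul_le_mul_of_nonneg_left hfs hg3
    have a2 : s * g 3 / 34010 * Θ ≤ s * g 3 / 34010 * ((N - K1.card) + 34010 * gain Z1) :=
      mul_le_mul_of_nonneg_left hΘle (by positivity)
    have a3 : s * g 3 / 34010 * (N - K1.card) ≤ s * g 3 * (N - K1.card) := by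
      have h1 : 0 ≤ s * g 3 * (N - K1.card) := by
        have : 0 ≤ N - K1.card := by linarith
        positivity
      have e : s * g 3 / 34010 * (N - K1.card) = s * g 3 * (N - K1.card) / 34010 := by ring
      rw [e]
      linarith
    have a4 : 0 ≤ s * g 3 * Θ := by positivity
    have a5 : s * g 3 / 34010 * Θ = s * g 3 * Θ / 34010 := by ring
    have a6 : s * g 3 / 34010 * ((N - K1.card) + 34010 * gain Z1) =
        s * g 3 / 34010 * (N - K1.card) + s * g 3 * gain Z1 := by ring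
    rw [a5, a6] at a2
    rw [hD] at hB
    have a7 : s / 100000 * Θ * g 3 = s * g 3 * Θ / 100000 := by ring
    have a8 : s * Θ * g 3 * (1596 / 10 ^ 8) = s * g 3 * Θ * (1596 / 10 ^ 8) := by ring
    rw [a8] at hE
    rw [a7]
    have a9 : N * (6 * g 3 + ∑ v ∈ W, 6 * g (3 * qn v)) = 6 * N * g 3 +
      N * ∑ v ∈ W, 6 * g (3 * qn v) := by ring
    rw [a9]
    have a10 : g 3 * (6 * (K1.card : ℝ) - 18 * s * (N - K1.card) + s * gain Z1) =
      6 * N * g 3 + s * g 3 * (N - K1.card) + s * g 3 * gain Z1 -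
        (N - K1.card) * ((6 + 19 * s) * g 3) := by ring
    rw [a10] at a1
    linarith
  -- the rows
  have h2 : ∀ i ∉ K1, ENNReal.ofReal ((6 + 19 * s) * g 3) ≤
      ∑' z, {z | z ∈ Vec L x i ∧ z ≠ 0}.indicator F z := by
    intro i hi
    obtain ⟨j, -, z, hz, hz0, hzn⟩ := hrem1 i (Finset.mem_univ _) hi
    push Not at hzn
    have a1 : {z | z ∈ Vec L x i ∧ z ≠ 0}.indicator F z = F z := Set.indicator_of_mem
      (show z ∈ {z | z ∈ Vec L x i ∧ z ≠ 0} from ⟨⟨j, hz⟩, hz0⟩) F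
    refine le_trans ?_ (ENNReal.le_tsum z)
    rw [a1]
    refine ENNReal.ofReal_le_ofReal ?_
    have hzp : 0 < ‖z‖ ^ 2 := by
      have := norm_pos_iff.mpr hz0
      positivity
    refine le_trans ?_ (hg.tan3 _ hzp)
    rw [mul_comm]
    exact mul_le_mul_of_nonneg_left (exp_removal hs hzn.le) hg3
  have h3 : ∑ i ∈ Finset.univ \ K1, ENNReal.ofReal ((6 + 19 * s) * g 3) ≤
      ∑ i ∈ Finset.univ \ K1, ∑' z, {z | z ∈ Vec L x i ∧ z ≠ 0}.indicator F z :=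
    Finset.sum_le_sum fun i hi => h2 i (Finset.mem_sdiff.mp hi).2
  have h4 : ∑ i, ∑' z, {z | z ∈ Vec L x i ∧ z ≠ 0}.indicator F z =
      ∑ i ∈ Finset.univ \ K1, ∑' z, {z | z ∈ Vec L x i ∧ z ≠ 0}.indicator F z +
      ∑ i ∈ K1, ∑' z, {z | z ∈ Vec L x i ∧ z ≠ 0}.indicator F z :=
    (Finset.sum_sdiff (Finset.subset_univ K1)).symm
  -- the rows of the first part
  have h5 : ∑ i : K1, ∑ z ∈ Z1 i, F z + ∑ v ∈ W, ∑ f ∈ RS L (fun i : K2 => x i) τ v,
      F (dsp (V (sg K2) τ (dd L (fun i : K2 => x i)) v.1 v.2) f) ≤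
      ∑ i ∈ K1, ∑' z, {z | z ∈ Vec L x i ∧ z ≠ 0}.indicator F z := by
    set T : K2 → ℝ≥0∞ := fun i => ∑ v ∈ W, ∑ k, (if (i, k) ∈ RS L (fun i : K2 => x i) τ v then
      F (dsp (V (sg K2) τ (dd L (fun i : K2 => x i)) v.1 v.2) (i, k)) else 0) with hT
    have b1 : ∑ v ∈ W, ∑ f ∈ RS L (fun i : K2 => x i) τ v,
        F (dsp (V (sg K2) τ (dd L (fun i : K2 => x i)) v.1 v.2) f) = ∑ i, T i := by
      simp only [hT]
      rw [Finset.sum_comm]
      refine Finset.sum_congr rfl fun v _ => ?_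
      have h2 : ∑ f ∈ RS L (fun i : K2 => x i) τ v,
          F (dsp (V (sg K2) τ (dd L (fun i : K2 => x i)) v.1 v.2) f) =
          ∑ f, (if f ∈ RS L (fun i : K2 => x i) τ v then
            F (dsp (V (sg K2) τ (dd L (fun i : K2 => x i)) v.1 v.2) f) else 0) := by
        rw [Finset.sum_ite_mem]
        simp
      rw [h2, Fintype.sum_prod_type]
    have b2 : ∑ i : K2, T i = ∑ i : K1, (if h : (i : α) ∈ K2 then T ⟨i, h⟩ else 0) := by
      have c1 : ∑ i : K2, T i = ∑ i ∈ Finset.univ.image (inc h21),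
          (if h : (i : α) ∈ K2 then T ⟨i, h⟩ else 0) := by
        rw [Finset.sum_image fun a _ b _ hab => inc_inj h21 hab]
        refine Finset.sum_congr rfl fun i _ => ?_
        have : ((inc h21 i : K1) : α) ∈ K2 := i.2
        rw [dif_pos this]
        rfl
      rw [c1]
      refine Finset.sum_subset (Finset.subset_univ _) fun i _ hi => ?_
      rw [dif_neg]
      intro h
      exact hi (Finset.mem_image.mpr ⟨⟨i, h⟩, Finset.mem_univ _, Subtype.ext rfl⟩)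
    rw [b1, b2, ← Finset.sum_add_distrib,
      ← Finset.sum_coe_sort K1 fun i => ∑' z, {z | z ∈ Vec L x i ∧ z ≠ 0}.indicator F z]
    refine Finset.sum_le_sum fun i _ => ?_
    have hZi : ∀ z ∈ Z1 i, z ∈ Vec L x i ∧ z ≠ 0 ∧ ‖z‖ < 2 := fun z hz => by
      obtain ⟨c1, c2, c3⟩ := (hZ1 i z).mp hz
      exact ⟨vec_sub_finset c1, c2, c3⟩
    by_cases h : (i : α) ∈ K2
    · rw [dif_pos h]
      exact class_le' hτ (i := ⟨i, h⟩) hZi F W hW
    · rw [dif_neg h, add_zero]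
      calc ∑ z ∈ Z1 i, F z = ∑ z ∈ Z1 i, {z | z ∈ Vec L x i ∧ z ≠ 0}.indicator F z := by
            refine Finset.sum_congr rfl fun z hz => ?_
            rw [Set.indicator_of_mem]
            exact ⟨(hZi z hz).1, (hZi z hz).2.1⟩
        _ ≤ _ := ENNReal.sum_le_tsum _
  rw [h4]
  refine le_trans ?_ (add_le_add h3 h5)
  have h6 : ∑ i ∈ Finset.univ \ K1, ENNReal.ofReal ((6 + 19 * s) * g 3) =
      ENNReal.ofReal ((N - K1.card) * ((6 + 19 * s) * g 3)) := by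
    rw [Finset.sum_const, nsmul_eq_mul, ← ENNReal.ofReal_natCast, ← ENNReal.ofReal_mul (by positivity),
      Finset.card_sdiff_of_subset (Finset.subset_univ K1), Finset.card_univ, Nat.cast_sub
        (Finset.card_le_univ K1)]
  have h7 : ∑ i, ∑ z ∈ Z1 i, F z = ENNReal.ofReal (∑ i, ∑ z ∈ Z1 i, g (‖z‖ ^ 2)) := by
    have hn : ∀ i, ∀ z ∈ Z1 i, 0 ≤ g (‖z‖ ^ 2) := by
      intro i z hz
      have := norm_pos_iff.mpr ((hZ1 i z).mp hz).2.1
      exact hg.pos _ (by positivity)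
    rw [ENNReal.ofReal_sum_of_nonneg fun i _ => Finset.sum_nonneg (hn i)]
    refine Finset.sum_congr rfl fun i _ => ?_
    rw [ENNReal.ofReal_sum_of_nonneg (hn i)]
  have h8' : ∀ v ∈ W, ∀ f ∈ RS L (fun i : K2 => x i) τ v,
      0 ≤ g (‖dsp (V (sg K2) τ (dd L (fun i : K2 => x i)) v.1 v.2) f‖ ^ 2) := by
    intro v hv f hf
    have := RS_far hτ (hW v hv).1 (hW v hv).2 hf
    exact hg.pos _ (by positivity)
  have h8 : ∑ v ∈ W, ∑ f ∈ RS L (fun i : K2 => x i) τ v,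
      F (dsp (V (sg K2) τ (dd L (fun i : K2 => x i)) v.1 v.2) f) =
      ENNReal.ofReal (∑ v ∈ W, ∑ f ∈ RS L (fun i : K2 => x i) τ v,
        g (‖dsp (V (sg K2) τ (dd L (fun i : K2 => x i)) v.1 v.2) f‖ ^ 2)) := by
    rw [ENNReal.ofReal_sum_of_nonneg fun v hv => Finset.sum_nonneg (h8' v hv)]
    refine Finset.sum_congr rfl fun v hv => ?_
    rw [ENNReal.ofReal_sum_of_nonneg (h8' v hv)]
  have hn7 : 0 ≤ ∑ i, ∑ z ∈ Z1 i, g (‖z‖ ^ 2) :=
    Finset.sum_nonneg fun i _ => Finset.sum_nonneg fun z hz => by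
      have := norm_pos_iff.mpr ((hZ1 i z).mp hz).2.1
      exact hg.pos _ (by positivity)
  have hn8 : 0 ≤ ∑ v ∈ W, ∑ f ∈ RS L (fun i : K2 => x i) τ v,
        g (‖dsp (V (sg K2) τ (dd L (fun i : K2 => x i)) v.1 v.2) f‖ ^ 2) :=
    Finset.sum_nonneg fun v hv => Finset.sum_nonneg (h8' v hv)
  have hn6 : 0 ≤ (N - K1.card) * ((6 + 19 * s) * g 3) := by
    have : 0 ≤ N - K1.card := by linarith
    positivity
  rw [h6, h7, h8, ← ENNReal.ofReal_add hn7 hn8, ← ENNReal.ofReal_add hn6 (add_nonneg hn7 hn8)]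
  refine ENNReal.ofReal_le_ofReal ?_
  rw [Fintype.card_coe]
  exact hreal

end

end Pool.Agent.H96.NU
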