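import Pool.Agent.H96.NU.Loc2
import Pool.Agent.H96.UO.Area
import Pool.Agent.H96.UO.Flags

/-!
# Near-universal optimality: the first shell of a separated configuration
-/

set_option autoImplicit false
set_option linter.unusedSectionVars false

open Real Set

namespace Pool.Agent.H96.NU

open Pool.Agent.H96.UO

theorem side_one {c t u p D : ℝ} (hc : 11 / 5 ≤ c) (hc2 : c ≤ 27 / 10)
    (a1 : 27 / 10 < t) (a2 : t < 4) (b1 : 27 / 10 < u) (b2 : u < 4)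
    (e1 : p ^ 2 + D ^ 2 = c * t) (f1 : 2 * p = c + t - u) :
    168 / 100 ≤ |D| ∧ |D| ≤ 3256 / 1000 := by
  have q1 : 45 / 100 ≤ p := by linarith
  have q2 : p ≤ (c + 13 / 10) / 2 := by linarith
  have m1 : c * (27 / 10) ≤ c * t := mul_le_mul_of_nonneg_left a1.le (by linarith)
  have m2 : p ^ 2 ≤ ((c + 13 / 10) / 2) ^ 2 := pow_le_pow_left₀ (by linarith) q2 2
  have m3 : c * t ≤ 27 / 10 * 4 := mul_le_mul hc2 a2.le (by linarith) (by norm_num)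
  have m4 : (45 / 100 : ℝ) ^ 2 ≤ p ^ 2 := pow_le_pow_left₀ (by norm_num) q1 2
  have m5 : 0 ≤ (c - 11 / 5) * (27 / 10 - c) := mul_nonneg (by linarith) (by linarith)
  have r1 : (168 / 100) ^ 2 ≤ |D| ^ 2 := by
    rw [sq_abs]
    norm_num
    linarith
  have r2 : |D| ^ 2 ≤ (3256 / 1000) ^ 2 := by
    rw [sq_abs]
    norm_num
    linarith
  exact ⟨le_of_sq_le_sq r1 (abs_nonneg D), le_of_sq_le_sq r2 (by norm_num)⟩

theorem side_alg {c t1 t2 u1 u2 p1 p2 D1 D2 e : ℝ} (hc : 11 / 5 ≤ c) (hc2 : c ≤ 27 / 10)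
    (a1 : 27 / 10 < t1) (a2 : t1 < 4) (b1 : 27 / 10 < u1) (b2 : u1 < 4)
    (a3 : 27 / 10 < t2) (a4 : t2 < 4) (b3 : 27 / 10 < u2) (b4 : u2 < 4)
    (e1 : p1 ^ 2 + D1 ^ 2 = c * t1) (e2 : p2 ^ 2 + D2 ^ 2 = c * t2)
    (f1 : 2 * p1 = c + t1 - u1) (f2 : 2 * p2 = c + t2 - u2)
    (he : c * e = (p1 - p2) ^ 2 + (D1 - D2) ^ 2) (hD : 0 < D1 * D2) : e < 11 / 5 := by
  obtain ⟨h1, h2⟩ := side_one hc hc2 a1 a2 b1 b2 e1 f1
  obtain ⟨h3, h4⟩ := side_one hc hc2 a3 a4 b3 b4 e2 f2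
  have s1 : (p1 - p2) ^ 2 ≤ (13 / 10) ^ 2 := sq_le_sq' (by linarith) (by linarith)
  have s2 : (D1 - D2) ^ 2 ≤ (1576 / 1000) ^ 2 := by
    have h5 : (D1 - D2) ^ 2 = (|D1| - |D2|) ^ 2 := by
      have : |D1| * |D2| = D1 * D2 := by rw [← abs_mul, abs_of_pos hD]
      have e5 := sq_abs D1
      have e6 := sq_abs D2
      linear_combination (-1 : ℝ) * e5 - e6 + 2 * this
    rw [h5]
    exact sq_le_sq' (by linarith) (by linarith)
  by_contra hcon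
  push Not at hcon
  have h6 : 11 / 5 * (11 / 5) ≤ c * e := mul_le_mul hc hcon (by norm_num) (by linarith)
  norm_num at s1 s2 h6
  linarith

theorem same_side {v y1 y2 : ℂ} (hv : 11 / 5 ≤ ‖v‖ ^ 2) (hv2 : ‖v‖ ^ 2 ≤ 27 / 10)
    (a1 : 27 / 10 < ‖y1‖ ^ 2) (a2 : ‖y1‖ ^ 2 < 4) (b1 : 27 / 10 < ‖v - y1‖ ^ 2)
    (b2 : ‖v - y1‖ ^ 2 < 4)
    (a3 : 27 / 10 < ‖y2‖ ^ 2) (a4 : ‖y2‖ ^ 2 < 4) (b3 : 27 / 10 < ‖v - y2‖ ^ 2)
    (b4 : ‖v - y2‖ ^ 2 < 4)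
    (hD : 0 < (v.re * y1.im - v.im * y1.re) * (v.re * y2.im - v.im * y2.re)) :
    ‖y1 - y2‖ ^ 2 < 11 / 5 := by
  have hn : ∀ z : ℂ, ‖z‖ ^ 2 = z.re * z.re + z.im * z.im := fun z => by
    rw [Complex.sq_norm, Complex.normSq_apply]
  refine side_alg hv hv2 a1 a2 b1 b2 a3 a4 b3 b4
    (p1 := v.re * y1.re + v.im * y1.im) (p2 := v.re * y2.re + v.im * y2.im)
    (D1 := v.re * y1.im - v.im * y1.re) (D2 := v.re * y2.im - v.im * y2.re) ?_ ?_ ?_ ?_ ?_ hD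
  · rw [hn, hn]; ring
  · rw [hn, hn]; ring
  · rw [hn, hn, hn]; simp only [Complex.sub_re, Complex.sub_im]; ring
  · rw [hn, hn, hn]; simp only [Complex.sub_re, Complex.sub_im]; ring
  · rw [hn, hn]; simp only [Complex.sub_re, Complex.sub_im]; ring

theorem side_ne {v y : ℂ} (hv : 11 / 5 ≤ ‖v‖ ^ 2) (hv2 : ‖v‖ ^ 2 ≤ 27 / 10)
    (a1 : 27 / 10 < ‖y‖ ^ 2) (a2 : ‖y‖ ^ 2 < 4) (b1 : 27 / 10 < ‖v - y‖ ^ 2)
    (b2 : ‖v - y‖ ^ 2 < 4) : v.re * y.im - v.im * y.re ≠ 0 := by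
  have hn : ∀ z : ℂ, ‖z‖ ^ 2 = z.re * z.re + z.im * z.im := fun z => by
    rw [Complex.sq_norm, Complex.normSq_apply]
  intro h0
  set p := v.re * y.re + v.im * y.im with hp
  have e1 : p ^ 2 = ‖v‖ ^ 2 * ‖y‖ ^ 2 := by
    have : p ^ 2 + (v.re * y.im - v.im * y.re) ^ 2 = ‖v‖ ^ 2 * ‖y‖ ^ 2 := by
      rw [hn, hn]; ring
    rw [h0] at this
    linarith
  have f1 : 2 * p = ‖v‖ ^ 2 + ‖y‖ ^ 2 - ‖v - y‖ ^ 2 := by
    rw [hn, hn, hn]; simp only [Complex.sub_re, Complex.sub_im]; ring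
  set c := ‖v‖ ^ 2
  have := (side_one hv hv2 a1 a2 b1 b2 (p := p) (D := 0) (by rw [e1]; ring) f1).1
  rw [abs_zero] at this
  norm_num at this

/-- a close pair has at most two common neighbours -/
theorem common_le_two {v : ℂ} (hv : 11 / 5 ≤ ‖v‖ ^ 2) (hv2 : ‖v‖ ^ 2 ≤ 27 / 10) {Y : Finset ℂ}
    (a1 : ∀ y ∈ Y, 27 / 10 < ‖y‖ ^ 2) (a2 : ∀ y ∈ Y, ‖y‖ ^ 2 < 4)
    (b1 : ∀ y ∈ Y, 27 / 10 < ‖v - y‖ ^ 2) (b2 : ∀ y ∈ Y, ‖v - y‖ ^ 2 < 4)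
    (hsep : ∀ z ∈ Y, ∀ w ∈ Y, z ≠ w → 11 / 5 ≤ ‖z - w‖ ^ 2) : Y.card ≤ 2 := by
  classical
  have h1 := Finset.card_filter_add_card_filter_not (s := Y)
    (fun y => 0 < v.re * y.im - v.im * y.re)
  have h2 : (Y.filter fun y => 0 < v.re * y.im - v.im * y.re).card ≤ 1 := by
    rw [Finset.card_le_one]
    intro y hy w hw
    obtain ⟨hy, hy2⟩ := Finset.mem_filter.mp hy
    obtain ⟨hw, hw2⟩ := Finset.mem_filter.mp hw
    by_contra hne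
    have := hsep y hy w hw hne
    have := same_side hv hv2 (a1 y hy) (a2 y hy) (b1 y hy) (b2 y hy) (a1 w hw) (a2 w hw) (b1 w hw)
      (b2 w hw) (mul_pos hy2 hw2)
    linarith
  have h3 : (Y.filter fun y => ¬ 0 < v.re * y.im - v.im * y.re).card ≤ 1 := by
    rw [Finset.card_le_one]
    intro y hy w hw
    obtain ⟨hy, hy2⟩ := Finset.mem_filter.mp hy
    obtain ⟨hw, hw2⟩ := Finset.mem_filter.mp hw
    by_contra hne
    have hy3 : v.re * y.im - v.im * y.re < 0 :=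
      lt_of_le_of_ne (not_lt.mp hy2) (side_ne hv hv2 (a1 y hy) (a2 y hy) (b1 y hy) (b2 y hy))
    have hw3 : v.re * w.im - v.im * w.re < 0 :=
      lt_of_le_of_ne (not_lt.mp hw2) (side_ne hv hv2 (a1 w hw) (a2 w hw) (b1 w hw) (b2 w hw))
    have := hsep y hy w hw hne
    have := same_side hv hv2 (a1 y hy) (a2 y hy) (b1 y hy) (b2 y hy) (a1 w hw) (a2 w hw) (b1 w hw)
      (b2 w hw) (mul_pos_of_neg_of_neg hy3 hw3)
    linarith
  omega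

section

variable {ι : Type*} [Fintype ι] [DecidableEq ι] (L : Submodule ℤ ℂ) (x : ι → ℂ)

/-- configurations with minimal squared distance at least `11/5` -/
structure Sp : Prop where
  inj : ∀ i j, x i - x j ∈ L → i = j
  sep : ∀ i, ∀ z ∈ Vec L x i, z ≠ 0 → 11 / 5 ≤ ‖z‖ ^ 2

variable {L x}

open Classical in
/-- the class of the endpoint -/
noncomputable def tg (L : Submodule ℤ ℂ) (x : ι → ℂ) (i : ι) (z : ℂ) : ι :=
  if h : ∃ j, z - (x j - x i) ∈ L then h.choose else i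

theorem tg_spec {i : ι} {z : ℂ} (h : z ∈ Vec L x i) : z - (x (tg L x i z) - x i) ∈ L := by
  have h' : ∃ j, z - (x j - x i) ∈ L := h
  unfold tg
  rw [dif_pos h']
  exact h'.choose_spec

variable (hS : Sp L x) {Z : ι → Finset ℂ}
  (hZ : ∀ i z, z ∈ Z i ↔ z ∈ Vec L x i ∧ z ≠ 0 ∧ ‖z‖ < 2)

include hS in
theorem Sp.tg_eq {i j : ι} {z : ℂ} (h : z - (x j - x i) ∈ L) : tg L x i z = j := by
  have h1 := tg_spec (show z ∈ Vec L x i from ⟨j, h⟩)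
  apply hS.inj
  have : x (tg L x i z) - x j = (z - (x j - x i)) - (z - (x (tg L x i z) - x i)) := by ring
  rw [this]
  exact L.sub_mem h h1

include hS in
theorem Sp.tg_tg {i : ι} {z : ℂ} (h : z ∈ Vec L x i) : tg L x (tg L x i z) (-z) = i := by
  refine hS.tg_eq ?_
  have := L.neg_mem (tg_spec h)
  have e : -(z - (x (tg L x i z) - x i)) = -z - (x i - x (tg L x i z)) := by ring
  rwa [e] at this

/-- the neighbours at squared distance more than `27/10` -/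
noncomputable def Nf (Z : ι → Finset ℂ) (i : ι) : Finset ℂ :=
  open Classical in (Z i).filter fun z => 27 / 10 < ‖z‖ ^ 2

/-- the close neighbours -/
noncomputable def Cf (Z : ι → Finset ℂ) (i : ι) : Finset ℂ :=
  open Classical in (Z i).filter fun z => ¬ 27 / 10 < ‖z‖ ^ 2

include hZ in
theorem mem_Nf {i : ι} {z : ℂ} : z ∈ Nf Z i ↔ z ∈ Vec L x i ∧ 27 / 10 < ‖z‖ ^ 2 ∧ ‖z‖ ^ 2 < 4 := by
  unfold Nf
  rw [Finset.mem_filter, hZ]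
  constructor
  · rintro ⟨⟨h1, h2, h3⟩, h4⟩
    exact ⟨h1, h4, by nlinarith [norm_nonneg z]⟩
  · rintro ⟨h1, h2, h3⟩
    refine ⟨⟨h1, ?_, by nlinarith [norm_nonneg z]⟩, h2⟩
    rintro rfl
    norm_num at h2

include hS hZ in
theorem mem_Cf {i : ι} {z : ℂ} : z ∈ Cf Z i ↔
    z ∈ Vec L x i ∧ z ≠ 0 ∧ ‖z‖ ^ 2 ≤ 27 / 10 := by
  unfold Cf
  rw [Finset.mem_filter, hZ, not_lt]
  constructor
  · rintro ⟨⟨h1, h2, h3⟩, h4⟩
    exact ⟨h1, h2, h4⟩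
  · rintro ⟨h1, h2, h3⟩
    exact ⟨⟨h1, h2, by nlinarith [norm_nonneg z]⟩, h3⟩

include hS in
theorem Sp.sep2 {i : ι} {z w : ℂ} (hz : z ∈ Vec L x i) (hw : w ∈ Vec L x i) (hne : z ≠ w) :
    11 / 5 ≤ ‖z - w‖ ^ 2 := by
  obtain ⟨j, hj⟩ := hw
  exact hS.sep j (z - w) (vec_sub hz hj) (sub_ne_zero.mpr hne)

include hS hZ in
/-- reversing the edges -/
theorem sum_reverse (G : ι → ℂ → ℝ) :
    ∑ i, ∑ z ∈ Nf Z i, G (tg L x i z) (-z) = ∑ j, ∑ y ∈ Nf Z j, G j y := by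
  rw [Finset.sum_sigma', Finset.sum_sigma']
  refine Finset.sum_nbij' (fun p => ⟨tg L x p.1 p.2, -p.2⟩) (fun p => ⟨tg L x p.1 p.2, -p.2⟩)
    ?_ ?_ ?_ ?_ ?_
  · rintro ⟨i, z⟩ h
    simp only [Finset.mem_sigma, Finset.mem_univ, true_and] at h ⊢
    rw [mem_Nf hZ] at h ⊢
    rw [norm_neg]
    exact ⟨vec_neg (tg_spec h.1), h.2⟩
  · rintro ⟨i, z⟩ h
    simp only [Finset.mem_sigma, Finset.mem_univ, true_and] at h ⊢
    rw [mem_Nf hZ] at h ⊢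
    rw [norm_neg]
    exact ⟨vec_neg (tg_spec h.1), h.2⟩
  · rintro ⟨i, z⟩ h
    simp only [Finset.mem_sigma, Finset.mem_univ, true_and] at h ⊢
    rw [mem_Nf hZ] at h
    simp only [hS.tg_tg h.1, neg_neg]
  · rintro ⟨i, z⟩ h
    simp only [Finset.mem_sigma, Finset.mem_univ, true_and] at h ⊢
    rw [mem_Nf hZ] at h
    simp only [hS.tg_tg h.1, neg_neg]
  · rintro ⟨i, z⟩ h
    rfl

open Classical in
/-- what an edge receives -/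
noncomputable def Gs (Z : ι → Finset ℂ) (s : ℝ) (j : ι) (y : ℂ) : ℝ :=
  ∑ v ∈ Cf Z j, if 27 / 10 < ‖v - y‖ ^ 2 ∧ ‖v - y‖ ^ 2 < 4 then -ph s (‖v‖ ^ 2) else 0

include hS hZ in
theorem neg_ph_nonneg {s : ℝ} (hs : 151 / 25 ≤ s) {j : ι} {v : ℂ} (hv : v ∈ Cf Z j) :
    s * (4 / 100) ≤ -ph s (‖v‖ ^ 2) := by
  obtain ⟨h1, h2, h3⟩ := (mem_Cf hS hZ).mp hv
  have h4 := hS.sep j v h1 h2
  have h5 := ph_close hs h4 h3
  have h6 : s * (4 / 100) ≤ s * (4 / 100 + 9 / 2 * (27 / 10 - ‖v‖ ^ 2)) := by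
    refine mul_le_mul_of_nonneg_left ?_ (by linarith)
    linarith
  linarith

include hS hZ in
theorem cz_le_Gs {s : ℝ} (hs : 151 / 25 ≤ s) {i : ι} {z : ℂ} (hz : z ∈ Nf Z i) :
    cz (Nf Z i) s z ≤ Gs Z s (tg L x i z) (-z) := by
  classical
  have hz1 := (mem_Nf hZ).mp hz
  have htg := tg_spec hz1.1
  have e1 : cz (Nf Z i) s z = ∑ w ∈ (Nf Z i).filter (fun w => w ≠ z ∧ ‖z - w‖ ^ 2 ≤ 27 / 10),
      -ph s (‖w - z‖ ^ 2) := by
    unfold cz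
    rw [Finset.sum_filter]
    refine Finset.sum_congr rfl fun w _ => ?_
    unfold cl
    rw [norm_sub_rev w z]
    by_cases h1 : w = z
    · simp [h1]
    · by_cases h2 : ‖z - w‖ ^ 2 ≤ 27 / 10 <;> simp [h1, h2]
  have e2 : ∑ w ∈ (Nf Z i).filter (fun w => w ≠ z ∧ ‖z - w‖ ^ 2 ≤ 27 / 10), -ph s (‖w - z‖ ^ 2) =
      ∑ v ∈ ((Nf Z i).filter (fun w => w ≠ z ∧ ‖z - w‖ ^ 2 ≤ 27 / 10)).image (fun w => w - z),
        -ph s (‖v‖ ^ 2) := by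
    rw [Finset.sum_image]
    intro a _ b _ hab
    exact sub_left_injective hab
  have e3 : Gs Z s (tg L x i z) (-z) = ∑ v ∈ (Cf Z (tg L x i z)).filter
      (fun v => 27 / 10 < ‖v - -z‖ ^ 2 ∧ ‖v - -z‖ ^ 2 < 4), -ph s (‖v‖ ^ 2) := by
    unfold Gs
    rw [Finset.sum_filter]
  rw [e1, e2, e3]
  refine Finset.sum_le_sum_of_subset_of_nonneg ?_ ?_
  · intro v hv
    obtain ⟨w, hw, rfl⟩ := Finset.mem_image.mp hv
    obtain ⟨hw1, hw2, hw3⟩ := Finset.mem_filter.mp hw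
    have hw4 := (mem_Nf hZ).mp hw1
    rw [Finset.mem_filter]
    refine ⟨(mem_Cf hS hZ).mpr ⟨?_, sub_ne_zero.mpr hw2, ?_⟩, ?_⟩
    · exact vec_sub hw4.1 htg
    · rw [norm_sub_rev]; exact hw3
    · rw [sub_neg_eq_add, sub_add_cancel]
      exact hw4.2
  · intro v hv _
    have := neg_ph_nonneg hS hZ hs (Finset.mem_filter.mp hv).1
    have h5 : 0 ≤ s * (4 / 100) := by
      have : 0 ≤ s := by linarith
      positivity
    linarith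

include hS hZ in
/-- **Discharging.** -/
theorem discharge {s : ℝ} (hs : 151 / 25 ≤ s) :
    ∑ i, ∑ z ∈ Nf Z i, cz (Nf Z i) s z ≤ 2 * ∑ j, ∑ v ∈ Cf Z j, -ph s (‖v‖ ^ 2) := by
  classical
  have h1 : ∑ i, ∑ z ∈ Nf Z i, cz (Nf Z i) s z ≤
      ∑ i, ∑ z ∈ Nf Z i, Gs Z s (tg L x i z) (-z) :=
    Finset.sum_le_sum fun i _ => Finset.sum_le_sum fun z hz => cz_le_Gs hS hZ hs hz
  refine h1.trans ?_
  rw [sum_reverse hS hZ (Gs Z s), Finset.mul_sum]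
  refine Finset.sum_le_sum fun j _ => ?_
  unfold Gs
  rw [Finset.sum_comm, Finset.mul_sum]
  refine Finset.sum_le_sum fun v hv => ?_
  obtain ⟨hv1, hv2, hv3⟩ := (mem_Cf hS hZ).mp hv
  have hn := neg_ph_nonneg hS hZ hs hv
  have h5 : 0 ≤ s * (4 / 100) := by
    have : 0 ≤ s := by linarith
    positivity
  rw [← Finset.sum_filter, Finset.sum_const, nsmul_eq_mul]
  refine mul_le_mul_of_nonneg_right ?_ (by linarith)
  have hY : ∀ y ∈ (Nf Z j).filter (fun y => 27 / 10 < ‖v - y‖ ^ 2 ∧ ‖v - y‖ ^ 2 < 4),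
      (y ∈ Vec L x j ∧ 27 / 10 < ‖y‖ ^ 2 ∧ ‖y‖ ^ 2 < 4) ∧
        (27 / 10 < ‖v - y‖ ^ 2 ∧ ‖v - y‖ ^ 2 < 4) := fun y hy => by
    obtain ⟨a, b⟩ := Finset.mem_filter.mp hy
    exact ⟨(mem_Nf hZ).mp a, b⟩
  have := common_le_two (hS.sep j v hv1 hv2) hv3 (fun y hy => (hY y hy).1.2.1)
    (fun y hy => (hY y hy).1.2.2) (fun y hy => (hY y hy).2.1) (fun y hy => (hY y hy).2.2)
    (fun y hy w hw hne => hS.sep2 (hY y hy).1.1 (hY w hw).1.1 hne)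
  exact_mod_cast this

/-- the gain of a configuration -/
noncomputable def gain (Z : ι → Finset ℂ) : ℝ :=
  ∑ i, gm (Nf Z i) + 1 / 250 * ∑ i, ((Cf Z i).card : ℝ)

include hS hZ in
/-- **The excess of a configuration.** -/
theorem sum_ph_le {s : ℝ} (hs : 151 / 25 ≤ s) :
    ∑ i, ∑ z ∈ Z i, ph s (‖z‖ ^ 2) + s * gain Z ≤ 6 * Fintype.card ι * ph s 3 := by
  classical
  have hsplit : ∀ i, ∑ z ∈ Z i, ph s (‖z‖ ^ 2) =
      ∑ z ∈ Nf Z i, ph s (‖z‖ ^ 2) + ∑ z ∈ Cf Z i, ph s (‖z‖ ^ 2) := fun i => by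
    unfold Nf Cf
    rw [← Finset.sum_filter_add_sum_filter_not (Z i) (fun z => 27 / 10 < ‖z‖ ^ 2)]
  have hloc : ∀ i, ∑ z ∈ Nf Z i, ph s (‖z‖ ^ 2) + s * gm (Nf Z i) ≤
      6 * ph s 3 + 9 / 20 * ∑ z ∈ Nf Z i, cz (Nf Z i) s z := fun i =>
    local_ineq hs (fun z hz => ((mem_Nf hZ).mp hz).2.1) (fun z hz => ((mem_Nf hZ).mp hz).2.2)
      (fun z hz w hw hne => hS.sep2 ((mem_Nf hZ).mp hz).1 ((mem_Nf hZ).mp hw).1 hne)
  have h1 := Finset.sum_le_sum fun i (_ : i ∈ Finset.univ) => hloc i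
  have e9 : ∑ i, 9 / 20 * ∑ z ∈ Nf Z i, cz (Nf Z i) s z =
      9 / 20 * ∑ i, ∑ z ∈ Nf Z i, cz (Nf Z i) s z := by rw [Finset.mul_sum]
  rw [Finset.sum_add_distrib, Finset.sum_add_distrib, e9, ← Finset.mul_sum,
    Finset.sum_const, Finset.card_univ, nsmul_eq_mul] at h1
  have h2 := discharge hS hZ hs
  have h3 : s * (4 / 100) * ∑ i, ((Cf Z i).card : ℝ) ≤ ∑ j, ∑ v ∈ Cf Z j, -ph s (‖v‖ ^ 2) := by
    rw [Finset.mul_sum]
    refine Finset.sum_le_sum fun j _ => ?_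
    have : ∑ _v ∈ Cf Z j, s * (4 / 100) ≤ ∑ v ∈ Cf Z j, -ph s (‖v‖ ^ 2) :=
      Finset.sum_le_sum fun v hv => neg_ph_nonneg hS hZ hs hv
    rw [Finset.sum_const, nsmul_eq_mul] at this
    linarith
  have h4 : ∑ j, ∑ v ∈ Cf Z j, -ph s (‖v‖ ^ 2) = -∑ j, ∑ v ∈ Cf Z j, ph s (‖v‖ ^ 2) := by
    simp only [Finset.sum_neg_distrib]
  rw [Finset.sum_congr rfl fun i _ => hsplit i, Finset.sum_add_distrib]
  rw [h4] at h2 h3
  unfold gain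
  have e10 : s * (∑ i, gm (Nf Z i) + 1 / 250 * ∑ i, ((Cf Z i).card : ℝ)) =
      s * ∑ i, gm (Nf Z i) + 1 / 10 * (s * (4 / 100) * ∑ i, ((Cf Z i).card : ℝ)) := by ring
  rw [e10]
  linarith

end

section

variable {ι : Type*} [Fintype ι] [DecidableEq ι] {L : Submodule ℤ ℂ} [DiscreteTopology L]
  [IsZLattice ℝ L] {x : ι → ℂ} (hS : Sp L x) {Z : ι → Finset ℂ}
  (hZ : ∀ i z, z ∈ Z i ↔ z ∈ Vec L x i ∧ z ≠ 0 ∧ ‖z‖ < 2)
  {N : ℝ} (hN : ZLattice.covolume L = N * (3 * √3 / 2))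

include hS hZ hN

/-- **The first shell of a separated configuration.** -/
theorem first_shell {s : ℝ} (hs : 151 / 25 ≤ s) :
    6 * (Fintype.card ι : ℝ) - 18 * s * (N - Fintype.card ι) + s * gain Z ≤
      ∑ i, ∑ z ∈ Z i, exp (-(s * (‖z‖ ^ 2 - 3))) := by
  have h := area_ineq L x hS.inj Z fun i z h1 h2 h3 => (hZ i z).mpr ⟨h1, h2, h3⟩
  rw [hN] at h
  have hph := sum_ph_le hS hZ hs
  rw [ph_three] at hph
  have e1 : ∑ i, ∑ z ∈ Z i, ph s (‖z‖ ^ 2) =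
      K s * ∑ i, ∑ z ∈ Z i, P (‖z‖ ^ 2) - ∑ i, ∑ z ∈ Z i, exp (-(s * (‖z‖ ^ 2 - 3))) := by
    unfold ph
    simp only [Finset.sum_sub_distrib, ← Finset.mul_sum]
  rw [e1] at hph
  have h33 : √3 * √3 = 3 := mul_self_sqrt (by norm_num)
  have hK : 0 ≤ K s := by
    have : 0 ≤ s := by linarith
    unfold K; positivity
  have h2 := mul_le_mul_of_nonneg_left h hK
  have e2 : K s * ((Fintype.card ι : ℝ) * π - N * (3 * √3 / 2)) =
      K s * (6 * Fintype.card ι * P 3) - 18 * s * (N - Fintype.card ι) := by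
    have e3 : π = 6 * P 3 + 3 * √3 / 2 := by rw [P_three]; ring
    have e4 : K s * (3 * √3 / 2) = 18 * s := by
      unfold K
      have : 4 * √3 * s * (3 * √3 / 2) = 6 * (√3 * √3) * s := by ring
      rw [this, h33]; ring
    have e5 : K s * ((Fintype.card ι : ℝ) * π - N * (3 * √3 / 2)) =
        K s * (Fintype.card ι * (π - 3 * √3 / 2)) - K s * (3 * √3 / 2) * (N - Fintype.card ι) := by
      ring
    rw [e5, e4]
    have e6 : π - 3 * √3 / 2 = 6 * P 3 := by rw [e3]; ring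
    rw [e6]
    ring
  rw [e2] at h2
  linarith

end

end Pool.Agent.H96.NU
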