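import Pool.Agent.H96.UO.Local

/-!
# Near-universal optimality: the excess of a pair

`ph s t` compares the overlap of two unit disks with centres at squared distance `t` with the
Gaussian weight `exp (- s (t - 3))`.
-/

set_option autoImplicit false
set_option linter.unusedSectionVars false

open Real Set

namespace Pool.Agent.H96.NU

open Pool.Agent.H96.UO

/-- overlap minus energy -/
noncomputable def ph (s t : ℝ) : ℝ := K s * P t - exp (-(s * (t - 3)))

/-- loss of a neighbour at squared distance `t` -/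
noncomputable def Dd (t : ℝ) : ℝ :=
  max 0 (57 / 200 * (t - 3) + 39 / 200 * (t - 3) ^ 2 - 28 / 1000)

theorem Dd_nonneg (t : ℝ) : 0 ≤ Dd t := le_max_left _ _

theorem ph_three (s : ℝ) : ph s 3 = K s * P 3 - 1 := by
  unfold ph
  simp

theorem ph_tan {s t : ℝ} (hs : 3 ≤ s) (h1 : 1 ≤ t) (h4 : t ≤ 4) :
    ph s t + s / 10 * (t - 3) ^ 2 ≤ ph s 3 := by
  have h := tangent hs h1 h4
  rw [ph_three]
  unfold ph
  linarith

theorem A_bounds : 62759 / 100000 ≤ 4 * √3 * P 3 ∧ 4 * √3 * P 3 ≤ 62761 / 100000 := by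
  rw [P_three]
  have h3 : √3 < 1.732051 := by
    rw [sqrt_lt' (by norm_num)]; norm_num
  have h3' : 1.73205 < √3 := by
    rw [lt_sqrt (by norm_num)]; norm_num
  have h33 : √3 * √3 = 3 := mul_self_sqrt (by norm_num)
  have p1 := pi_gt_d6
  have p2 := pi_lt_d6
  have e : 4 * √3 * (π / 6 - √3 / 4) = 2 * (√3 * π) / 3 - 3 := by nlinarith
  rw [e]
  constructor <;> nlinarith

theorem ph_three_eq (s : ℝ) : ph s 3 = s * (4 * √3 * P 3) - 1 := by
  rw [ph_three]; unfold K; ring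

theorem convexOn_P : ConvexOn ℝ (Icc 3 4) P := by
  refine MonotoneOn.convexOn_of_deriv (convex_Icc _ _) continuous_P.continuousOn ?_ ?_
  · rw [interior_Icc]
    intro x hx
    exact (hasDerivAt_P (by linarith [hx.1]) hx.2).differentiableAt.differentiableWithinAt
  · rw [interior_Icc]
    intro x hx y hy hxy
    rw [(hasDerivAt_P (by linarith [hx.1]) hx.2).deriv,
      (hasDerivAt_P (by linarith [hy.1]) hy.2).deriv]
    have h1 : √(4 - y) / √y ≤ √(4 - x) / √x := by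
      have hx0 : 0 < √x := sqrt_pos.mpr (by linarith [hx.1])
      have a1 : √(4 - y) ≤ √(4 - x) := sqrt_le_sqrt (by linarith)
      have a2 : √x ≤ √y := sqrt_le_sqrt hxy
      have a3 := sqrt_nonneg (4 - x)
      gcongr
    linarith

theorem P_le_chord {t : ℝ} (h3 : 3 ≤ t) (h4 : t ≤ 4) : P t ≤ (4 - t) * P 3 := by
  have h := convexOn_P.2 (show (3:ℝ) ∈ Icc (3:ℝ) 4 from ⟨le_rfl, by norm_num⟩)
    (show (4:ℝ) ∈ Icc (3:ℝ) 4 from ⟨by norm_num, le_rfl⟩)
    (show 0 ≤ 4 - t by linarith) (show 0 ≤ t - 3 by linarith) (by ring)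
  simp only [smul_eq_mul, P_four, mul_zero, add_zero] at h
  have e : (4 - t) * 3 + (t - 3) * 4 = t := by ring
  rwa [e] at h

/-- `(1 - exp (- s u)) / s` decreases with `s` -/
theorem slope_mono {s0 s : ℝ} (h0 : 0 < s0) (h : s0 ≤ s) (u : ℝ) :
    s0 * (1 - exp (-(s * u))) ≤ s * (1 - exp (-(s0 * u))) := by
  have hs : 0 < s := by linarith
  have h1 := convexOn_exp.2 (mem_univ (-(s * u))) (mem_univ 0) (show 0 ≤ s0 / s by positivity)
    (show 0 ≤ 1 - s0 / s by rw [sub_nonneg, div_le_one hs]; exact h) (by ring)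
  simp only [smul_eq_mul, mul_zero, add_zero, exp_zero, mul_one] at h1
  have e : s0 / s * -(s * u) = -(s0 * u) := by field_simp
  rw [e] at h1
  have h2 := mul_le_mul_of_nonneg_left h1 hs.le
  have e2 : s * (s0 / s * exp (-(s * u)) + (1 - s0 / s)) = s0 * exp (-(s * u)) + s - s0 := by
    field_simp
    ring
  rw [e2] at h2
  linarith

theorem ph_loss {s t : ℝ} (hs : 151 / 25 ≤ s) (h1 : 27 / 10 ≤ t) (h4 : t ≤ 4) :
    s * Dd t ≤ ph s 3 - ph s t := by
  have hs0 : 0 < s := by linarith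
  have htan := ph_tan (s := s) (t := t) (by linarith) (by linarith) h4
  have hq : 0 ≤ s / 10 * (t - 3) ^ 2 := by positivity
  unfold Dd
  rw [mul_max_of_nonneg _ _ hs0.le, mul_zero]
  refine max_le (by linarith) ?_
  rcases le_total t 3 with h3 | h3
  · have : 57 / 200 * (t - 3) + 39 / 200 * (t - 3) ^ 2 - 28 / 1000 ≤ 0 := by nlinarith
    nlinarith
  set u := t - 3 with hu
  have hu0 : 0 ≤ u := by linarith
  have hu1 : u ≤ 1 := by linarith
  have hsl := slope_mono (s0 := 151 / 25) (by norm_num) hs u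
  have s3 := sqrt3_pos
  obtain ⟨a1, a2⟩ := A_bounds
  have hpar : u - u ^ 2 / 2 ≤ 4 * √3 * P 3 - 4 * √3 * P t := by
    have hP := P_le_parabola (t := t) (by linarith) h4
    have h5 : 4 * √3 * P t ≤ 4 * √3 * (P 3 + ((4 - t) ^ 2 - 1) / (8 * √3)) :=
      mul_le_mul_of_nonneg_left hP (by positivity)
    have e : 4 * √3 * (P 3 + ((4 - t) ^ 2 - 1) / (8 * √3)) =
        4 * √3 * P 3 + ((1 - u) ^ 2 - 1) / 2 := by
      rw [show 4 - t = 1 - u by rw [hu]; ring]
      field_simp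
      ring
    rw [e] at h5
    linarith
  have hch : 62759 / 100000 * u ≤ 4 * √3 * P 3 - 4 * √3 * P t := by
    have hP := P_le_chord h3 h4
    have h5 : 4 * √3 * P t ≤ 4 * √3 * ((4 - t) * P 3) :=
      mul_le_mul_of_nonneg_left hP (by positivity)
    have e : 4 * √3 * ((4 - t) * P 3) = 4 * √3 * P 3 - (4 * √3 * P 3) * u := by
      rw [show 4 - t = 1 - u by rw [hu]; ring]
      ring
    rw [e] at h5
    nlinarith
  have hph : ph s 3 - ph s t = s * (4 * √3 * P 3 - 4 * √3 * P t) - (1 - exp (-(s * u))) := by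
    rw [ph_three_eq]
    unfold ph K
    ring
  rw [hph]
  -- reduce to `s0`
  suffices h : 57 / 200 * u + 39 / 200 * u ^ 2 - 28 / 1000 ≤
      (4 * √3 * P 3 - 4 * √3 * P t) - (1 - exp (-(151 / 25 * u))) * (25 / 151) by
    have h6 := mul_le_mul_of_nonneg_left h hs0.le
    linarith
  have hy : 0 ≤ 151 / 25 * u := by positivity
  have he0 := exp_pos (-(151 / 25 * u))
  rcases le_total u (3 / 10) with c | c
  · have h5 := exp_neg_ge hy
    have h6 : 151 / 25 * (3 / 2 * u ^ 2) ≤ (151 / 25 * u) ^ 2 / (2 + 151 / 25 * u) := by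
      rw [le_div_iff₀ (by linarith)]
      nlinarith [mul_nonneg (sq_nonneg u) (sub_nonneg.mpr c)]
    nlinarith [sq_nonneg (u - 1 / 5)]
  · rcases le_total u (7 / 10) with c' | c'
    · nlinarith
    · nlinarith

theorem exp_1812 : (612 : ℝ) / 100 ≤ exp (1812 / 1000) := by
  refine le_trans ?_ (sum_le_exp_of_nonneg (x := 1812 / 1000) (by norm_num) 10)
  norm_num [Finset.sum_range_succ, Nat.factorial]

theorem exp_4832 : (125 : ℝ) ≤ exp (4832 / 1000) := by
  refine le_trans ?_ (sum_le_exp_of_nonneg (x := 4832 / 1000) (by norm_num) 16)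
  norm_num [Finset.sum_range_succ, Nat.factorial]

/-- the pairs at small distance have a strictly negative excess -/
theorem ph_close {s t : ℝ} (hs : 151 / 25 ≤ s) (h1 : 11 / 5 ≤ t) (h4 : t ≤ 27 / 10) :
    s * (4 / 100 + 9 / 2 * (27 / 10 - t)) ≤ -ph s t := by
  have hs0 : 0 < s := by linarith
  have s3 := sqrt3_pos
  obtain ⟨a1, a2⟩ := A_bounds
  set v := 3 - t with hv
  have hv1 : 3 / 10 ≤ v := by linarith
  have hv2 : v ≤ 8 / 10 := by linarith
  have hpar : 4 * √3 * P t ≤ 4 * √3 * P 3 + (v + v ^ 2 / 2) := by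
    have hP := P_le_parabola (t := t) (by linarith) (by linarith)
    have h5 : 4 * √3 * P t ≤ 4 * √3 * (P 3 + ((4 - t) ^ 2 - 1) / (8 * √3)) :=
      mul_le_mul_of_nonneg_left hP (by positivity)
    have e : 4 * √3 * (P 3 + ((4 - t) ^ 2 - 1) / (8 * √3)) =
        4 * √3 * P 3 + (v + v ^ 2 / 2) := by
      rw [show 4 - t = 1 + v by rw [hv]; ring]
      field_simp
      ring
    rwa [e] at h5
  have e1 : -(s * (t - 3)) = 1812 / 1000 + 151 / 25 * (v - 3 / 10) + (s - 151 / 25) * v := by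
    rw [hv]; ring
  have h2 : 1 + 151 / 25 * (v - 3 / 10) ≤ exp (151 / 25 * (v - 3 / 10)) := by
    linarith [add_one_le_exp (151 / 25 * (v - 3 / 10))]
  have h3 : s * (25 / 151) ≤ exp ((s - 151 / 25) * v) := by
    have := add_one_le_exp ((s - 151 / 25) * v)
    nlinarith
  have h5 : 612 / 100 * (1 + 151 / 25 * (v - 3 / 10)) * (s * (25 / 151)) ≤ exp (-(s * (t - 3))) := by
    rw [e1, exp_add, exp_add]
    have := exp_1812
    have h6 : 0 ≤ 1 + 151 / 25 * (v - 3 / 10) := by nlinarith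
    gcongr
  have h6 : -ph s t = exp (-(s * (t - 3))) - s * (4 * √3 * P t) := by unfold ph K; ring
  rw [h6]
  have h7 : s * (4 * √3 * P t) ≤ s * (62761 / 100000 + (v + v ^ 2 / 2)) :=
    mul_le_mul_of_nonneg_left (by linarith) hs0.le
  have h8 : s * (4 / 100 + 9 / 2 * (27 / 10 - t)) + s * (62761 / 100000 + (v + v ^ 2 / 2)) ≤
      612 / 100 * (1 + 151 / 25 * (v - 3 / 10)) * (s * (25 / 151)) := by
    have e9 : 27 / 10 - t = v - 3 / 10 := by rw [hv]; ring
    rw [e9]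
    have : (4 / 100 + 9 / 2 * (v - 3 / 10)) + (62761 / 100000 + (v + v ^ 2 / 2)) ≤
        612 / 100 * (1 + 151 / 25 * (v - 3 / 10)) * (25 / 151) := by
      nlinarith
    have := mul_le_mul_of_nonneg_left this hs0.le
    linarith
  linarith

/-- the weight of a pair at very small distance pays for the removal of a point -/
theorem exp_removal {s t : ℝ} (hs : 151 / 25 ≤ s) (h4 : t ≤ 11 / 5) :
    6 + 19 * s ≤ exp (-(s * (t - 3))) := by
  have h1 : 4 / 5 * s ≤ -(s * (t - 3)) := by nlinarith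
  refine le_trans ?_ (exp_le_exp.mpr h1)
  have e : 4 / 5 * s = 4832 / 1000 + 4 / 5 * (s - 151 / 25) := by ring
  rw [e, exp_add]
  have h2 := add_one_le_exp (4 / 5 * (s - 151 / 25))
  have h3 := exp_4832
  have h4 : 0 ≤ 4 / 5 * (s - 151 / 25) + 1 := by linarith
  calc 6 + 19 * s ≤ 125 * (4 / 5 * (s - 151 / 25) + 1) := by linarith
    _ ≤ _ := by gcongr

/-- the half-angle sum allowed by the loss `X` -/
theorem cos_bound {X : ℝ} (h0 : 0 ≤ X) (h1 : X ≤ 3 / 10) :
    565 / 1000 + 53 / 100 * X ≤ cos (96 / 100 - 69 / 100 * X) := by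
  set y : ℝ := 48 / 100 - 345 / 1000 * X with hy
  have h := cos_two_mul_ge (x := y) (by nlinarith)
  have e : 96 / 100 - 69 / 100 * X = 2 * y := by rw [hy]; ring
  rw [e]
  refine le_trans ?_ h
  have hX : X = (48 / 100 - y) * (1000 / 345) := by rw [hy]; ring
  have hy1 : 3765 / 10000 ≤ y := by rw [hy]; linarith
  have hy2 : y ≤ 48 / 100 := by rw [hy]; linarith
  rw [hX]
  have h3 : (y - 3765 / 10000) * (48 / 100 - y) ≥ 0 :=
    mul_nonneg (by linarith) (by linarith)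
  nlinarith [sq_nonneg y, mul_nonneg h3 (sq_nonneg y), mul_nonneg h3 (show 0 ≤ y by linarith)]

theorem cos_753 : 7265 / 10000 ≤ cos (753 / 1000) := by
  have h := cos_two_mul_ge (x := 3765 / 10000) (by norm_num)
  have e : (753:ℝ) / 1000 = 2 * (3765 / 10000) := by norm_num
  rw [e]
  refine le_trans ?_ h
  norm_num

theorem pair_poly {a b : ℝ} (hab : 27 / 10 ≤ a * b) :
    a ^ 2 + b ^ 2 - 27 / 10 ≤ 2 * (a * b) * (565 / 1000 + 53 / 200 *
      ((57 / 200 * (a ^ 2 - 3) + 39 / 200 * (a ^ 2 - 3) ^ 2 - 28 / 1000) +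
      (57 / 200 * (b ^ 2 - 3) + 39 / 200 * (b ^ 2 - 3) ^ 2 - 28 / 1000))) := by
  set p := a * b with hp
  set S := a ^ 2 + b ^ 2 with hS
  have hSp : 0 ≤ S - 2 * p := by
    have : S - 2 * p = (a - b) ^ 2 := by rw [hS, hp]; ring
    rw [this]; positivity
  have e : (57 / 200 * (a ^ 2 - 3) + 39 / 200 * (a ^ 2 - 3) ^ 2 - 28 / 1000) +
      (57 / 200 * (b ^ 2 - 3) + 39 / 200 * (b ^ 2 - 3) ^ 2 - 28 / 1000) =
      57 / 200 * (S - 6) + 39 / 200 * (S ^ 2 - 2 * p ^ 2 - 6 * S + 18) - 56 / 1000 := by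
    rw [hS, hp]; ring
  rw [e]
  have h1 : 0 ≤ 2 * p * (53 / 200 * (39 / 200) * (S + 2 * p) -
      53 / 200 * (6 * (39 / 200) - 57 / 200)) - 1 := by
    have : 53 / 200 * (39 / 200) * (4 * p) - 53 / 200 * (6 * (39 / 200) - 57 / 200) ≤
      53 / 200 * (39 / 200) * (S + 2 * p) - 53 / 200 * (6 * (39 / 200) - 57 / 200) := by linarith
    nlinarith
  have h2 := mul_nonneg hSp h1
  have h3 : 0 ≤ 2 * p * (565 / 1000 + 53 / 200 * (57 / 200 * (2 * p - 6) +
      39 / 200 * (2 * p ^ 2 - 12 * p + 18) - 56 / 1000)) - 2 * p + 27 / 10 := by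
    nlinarith [mul_nonneg (sub_nonneg.mpr hab) (sq_nonneg (p - 3)), sq_nonneg (p - 3)]
  nlinarith

/-- **Pair lemma.** -/
theorem pair {z w : ℂ} (hz : 27 / 10 ≤ ‖z‖ ^ 2) (hz4 : ‖z‖ ^ 2 ≤ 4) (hw : 27 / 10 ≤ ‖w‖ ^ 2)
    (hw4 : ‖w‖ ^ 2 ≤ 4) (hzw : 11 / 5 ≤ ‖z - w‖ ^ 2) {X : ℝ}
    (hX : (Dd (‖z‖ ^ 2) + Dd (‖w‖ ^ 2)) / 2 ≤ X)
    (hX2 : (Dd (‖z‖ ^ 2) + Dd (‖w‖ ^ 2)) / 2 + 2 * (27 / 10 - ‖z - w‖ ^ 2) ≤ X) :
    96 / 100 - 69 / 100 * X ≤ InnerProductGeometry.angle z w := by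
  have hp := pi_gt_three
  have hz0 : z ≠ 0 := by
    rintro rfl
    norm_num at hz
  have hw0 : w ≠ 0 := by
    rintro rfl
    norm_num at hw
  have d1 := Dd_nonneg (‖z‖ ^ 2)
  have d2 := Dd_nonneg (‖w‖ ^ 2)
  have d3 : 57 / 200 * (‖z‖ ^ 2 - 3) + 39 / 200 * (‖z‖ ^ 2 - 3) ^ 2 - 28 / 1000 ≤ Dd (‖z‖ ^ 2) :=
    le_max_right _ _
  have d4 : 57 / 200 * (‖w‖ ^ 2 - 3) + 39 / 200 * (‖w‖ ^ 2 - 3) ^ 2 - 28 / 1000 ≤ Dd (‖w‖ ^ 2) :=
    le_max_right _ _
  have hX0 : 0 ≤ X := by linarith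
  have na := norm_nonneg z
  have nb := norm_nonneg w
  set a := ‖z‖ with ha
  set b := ‖w‖ with hb
  set τ := ‖z - w‖ ^ 2 with hτ
  have ha2 : a ≤ 2 := by nlinarith
  have hb2 : b ≤ 2 := by nlinarith
  have ha1 : 164 / 100 ≤ a := by nlinarith
  have hb1 : 164 / 100 ≤ b := by nlinarith
  have hab : 27 / 10 ≤ a * b := by
    have : (27 / 10) ^ 2 ≤ (a * b) ^ 2 := by
      rw [mul_pow]
      have : (27 / 10 : ℝ) ^ 2 = 27 / 10 * (27 / 10) := by norm_num
      rw [this]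
      gcongr
    exact le_of_sq_le_sq this (by positivity)
  rcases le_total X (3 / 10) with hc | hc
  · refine angle_ge hz0 hw0 (by linarith) (cos_bound hX0 hc) ?_
    have h1 := pair_poly hab
    have h2 : 2 * (a * b) * (565 / 1000 + 53 / 200 *
        ((57 / 200 * (a ^ 2 - 3) + 39 / 200 * (a ^ 2 - 3) ^ 2 - 28 / 1000) +
        (57 / 200 * (b ^ 2 - 3) + 39 / 200 * (b ^ 2 - 3) ^ 2 - 28 / 1000))) ≤
        2 * (a * b) * (565 / 1000 + 53 / 200 * (Dd (a ^ 2) + Dd (b ^ 2))) := by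
      gcongr
    rcases le_total τ (27 / 10) with hc2 | hc2
    · have h3 : 2 * (a * b) * (565 / 1000 + 53 / 200 * (Dd (a ^ 2) + Dd (b ^ 2))) +
          2 * (a * b) * (53 / 100 * (2 * (27 / 10 - τ))) ≤
          2 * (565 / 1000 + 53 / 100 * X) * (a * b) := by
        have := mul_le_mul_of_nonneg_left hX2 (show 0 ≤ 2 * (a * b) * (53 / 100) by positivity)
        linarith
      have h4 : 27 / 10 - τ ≤ 2 * (a * b) * (53 / 100 * (2 * (27 / 10 - τ))) := by
        have : 27 / 10 * (27 / 10 - τ) ≤ a * b * (27 / 10 - τ) :=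
          mul_le_mul_of_nonneg_right hab (by linarith)
        linarith
      linarith
    · have h3 : 2 * (a * b) * (565 / 1000 + 53 / 200 * (Dd (a ^ 2) + Dd (b ^ 2))) ≤
          2 * (565 / 1000 + 53 / 100 * X) * (a * b) := by
        have := mul_le_mul_of_nonneg_left hX (show 0 ≤ 2 * (a * b) * (53 / 100) by positivity)
        linarith
      linarith
  · refine le_trans ?_ (angle_ge hz0 hw0 (θ := 753 / 1000) (by linarith) cos_753 ?_)
    · linarith
    · have h5 : 0 ≤ (2 - a) * (b - 1) := mul_nonneg (by linarith) (by linarith)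
      have h6 : 0 ≤ (2 - b) * (a - 1) := mul_nonneg (by linarith) (by linarith)
      have h7 : 0 ≤ (2 - a) * (2 - b) := mul_nonneg (by linarith) (by linarith)
      have h8 : 0 ≤ (2 - a) * (a - 164 / 100) := mul_nonneg (by linarith) (by linarith)
      have h9 : 0 ≤ (2 - b) * (b - 164 / 100) := mul_nonneg (by linarith) (by linarith)
      nlinarith

end Pool.Agent.H96.NU
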