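import Pool.Agent.H96.NU.Loc

/-!
# Near-universal optimality: the local inequality
-/

set_option autoImplicit false
set_option linter.unusedSectionVars false

open Real Set

namespace Pool.Agent.H96.NU

open Pool.Agent.H96.UO

/-- the deficit of a close pair -/
noncomputable def cl (s τ : ℝ) : ℝ := if τ ≤ 27 / 10 then -ph s τ else 0

theorem cl_nonneg {s τ : ℝ} (hs : 151 / 25 ≤ s) (h : 11 / 5 ≤ τ) : 0 ≤ cl s τ := by
  unfold cl
  split_ifs with h1
  · have := ph_close hs h h1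
    have h2 : 0 ≤ s * (4 / 100 + 9 / 2 * (27 / 10 - τ)) := by
      have : 0 ≤ 27 / 10 - τ := by linarith
      positivity
    linarith
  · exact le_rfl

theorem cl_ge {s τ : ℝ} (hs : 151 / 25 ≤ s) (h : 11 / 5 ≤ τ) :
    s * (40 / 9 * (27 / 10 - τ)) ≤ cl s τ := by
  have hs0 : 0 < s := by linarith
  unfold cl
  split_ifs with h1
  · have := ph_close hs h h1
    have h2 : s * (40 / 9 * (27 / 10 - τ)) ≤ s * (4 / 100 + 9 / 2 * (27 / 10 - τ)) := by
      refine mul_le_mul_of_nonneg_left ?_ hs0.le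
      linarith
    linarith
  · push Not at h1
    exact mul_nonpos_of_nonneg_of_nonpos hs0.le (by linarith)

section

variable {J : Finset ℂ} {s : ℝ} (hs : 151 / 25 ≤ s) (h1 : ∀ z ∈ J, 27 / 10 < ‖z‖ ^ 2)
  (h2 : ∀ z ∈ J, ‖z‖ ^ 2 < 4)
  (hsep : ∀ z ∈ J, ∀ w ∈ J, z ≠ w → 11 / 5 ≤ ‖z - w‖ ^ 2)

open Classical in
/-- the deficit of the close neighbours of `z` in `J` -/
noncomputable def cz (J : Finset ℂ) (s : ℝ) (z : ℂ) : ℝ :=
  ∑ w ∈ J, if w = z then 0 else cl s (‖z - w‖ ^ 2)

include hs hsep in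
theorem cz_term_nonneg {z : ℂ} (hz : z ∈ J) {w : ℂ} (hw : w ∈ J) [Decidable (w = z)] :
    0 ≤ (if w = z then 0 else cl s (‖z - w‖ ^ 2)) := by
  split_ifs with h
  · exact le_rfl
  · exact cl_nonneg hs (hsep z hz w hw (Ne.symm h))

include hs hsep in
theorem cz_nonneg {z : ℂ} (hz : z ∈ J) : 0 ≤ cz J s z :=
  Finset.sum_nonneg fun _ hw => cz_term_nonneg hs hsep hz hw

include hs hsep in
theorem cl_le_cz {z w : ℂ} (hz : z ∈ J) (hw : w ∈ J) (hne : z ≠ w) :
    cl s (‖z - w‖ ^ 2) ≤ cz J s z := by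
  classical
  unfold cz
  have := Finset.single_le_sum (f := fun w => if w = z then 0 else cl s (‖z - w‖ ^ 2))
    (fun w hw => cz_term_nonneg hs hsep hz hw) hw
  simp only [if_neg (Ne.symm hne)] at this
  convert this

include hs h1 h2 hsep in
/-- **Seven or more neighbours.** -/
theorem local_seven (h7 : 7 ≤ J.card) :
    s * (((J.card : ℝ) - 6) * (4 * √3 * P 3) + 5 / 1000) ≤
      ∑ z ∈ J, (ph s 3 - ph s (‖z‖ ^ 2)) + 9 / 20 * ∑ z ∈ J, cz J s z := by
  classical
  have hs0 : 0 < s := by linarith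
  obtain ⟨a1, a2⟩ := A_bounds
  set x : ℂ → ℝ := fun z => Dd (‖z‖ ^ 2) + 9 / 20 * (cz J s z / s) with hx
  have hxn : ∀ z ∈ J, 0 ≤ x z := by
    intro z hz
    have := cz_nonneg hs hsep hz
    have := Dd_nonneg (‖z‖ ^ 2)
    simp only [hx]
    positivity
  set J' := J.filter fun z => x z < 64 / 100 with hJ'
  have hJJ : ∀ z ∈ J', z ∈ J := fun z hz => (Finset.mem_filter.mp hz).1
  have hp := pi_gt_three
  have hpair : ∀ z ∈ J', ∀ w ∈ J', z ≠ w →
      (48 / 100 - 345 / 1000 * x z) + (48 / 100 - 345 / 1000 * x w) ≤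
        InnerProductGeometry.angle z w := by
    intro z hz w hw hne
    have hz' := hJJ z hz
    have hw' := hJJ w hw
    have b1 := cl_le_cz hs hsep hz' hw' hne
    have b2 := cl_le_cz hs hsep hw' hz' hne.symm
    have b3 : ‖w - z‖ = ‖z - w‖ := norm_sub_rev _ _
    rw [b3] at b2
    have b4 := cl_ge hs (hsep z hz' w hw' hne)
    have c1 := cz_nonneg hs hsep hz'
    have c2 := cz_nonneg hs hsep hw'
    have b5 : 40 / 9 * (27 / 10 - ‖z - w‖ ^ 2) ≤ cz J s z / s := by
      rw [le_div_iff₀ hs0]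
      linarith
    have b6 : 40 / 9 * (27 / 10 - ‖z - w‖ ^ 2) ≤ cz J s w / s := by
      rw [le_div_iff₀ hs0]
      linarith
    have c3 : 0 ≤ cz J s z / s := by positivity
    have c4 : 0 ≤ cz J s w / s := by positivity
    have := pair (X := (x z + x w) / 2) (h1 z hz').le (h2 z hz').le (h1 w hw').le (h2 w hw').le
      (hsep z hz' w hw' hne) (by simp only [hx]; linarith) (by simp only [hx]; linarith)
    linarith
  have harc := arcs_total J' (id : ℂ → ℂ) (fun z => 48 / 100 - 345 / 1000 * x z)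
    (fun z hz => by
      have := h1 z (hJJ z hz)
      rintro h0
      simp only [id] at h0
      rw [h0] at this
      norm_num at this)
    (fun z hz => by
      have := (Finset.mem_filter.mp hz).2
      linarith)
    (fun z hz => by
      have := hxn z (hJJ z hz)
      linarith)
    (fun z hz w hw hne => hpair z hz w hw hne)
  rw [Finset.sum_sub_distrib, Finset.sum_const, ← Finset.mul_sum, nsmul_eq_mul] at harc
  have hsplit : ∑ z ∈ J, x z = ∑ z ∈ J', x z + ∑ z ∈ J.filter (fun z => ¬ x z < 64 / 100), x z :=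
    (Finset.sum_filter_add_sum_filter_not _ _ _).symm
  have hrest : 64 / 100 * ((J.filter (fun z => ¬ x z < 64 / 100)).card : ℝ) ≤
      ∑ z ∈ J.filter (fun z => ¬ x z < 64 / 100), x z := by
    have : ∑ _z ∈ J.filter (fun z => ¬ x z < 64 / 100), (64 / 100 : ℝ) ≤
        ∑ z ∈ J.filter (fun z => ¬ x z < 64 / 100), x z := by
      refine Finset.sum_le_sum fun z hz => ?_
      have := (Finset.mem_filter.mp hz).2
      push Not at this
      exact this
    rw [Finset.sum_const, nsmul_eq_mul] at this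
    linarith
  have hcard : (J'.card : ℝ) + (J.filter (fun z => ¬ x z < 64 / 100)).card = J.card := by
    have := Finset.card_filter_add_card_filter_not (s := J) (fun z => x z < 64 / 100)
    exact_mod_cast this
  have hJ'0 : 0 ≤ ∑ z ∈ J', x z := Finset.sum_nonneg fun z hz => hxn z (hJJ z hz)
  have h7' : (7 : ℝ) ≤ J.card := by exact_mod_cast h7
  have hπ := pi_lt_d4
  -- the sum of the losses
  have hmain : ((J.card : ℝ) - 6) * (4 * √3 * P 3) + 5 / 1000 ≤ ∑ z ∈ J, x z := by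
    have hm : ((J.card : ℝ) - 6) * (4 * √3 * P 3) ≤ ((J.card : ℝ) - 6) * (62761 / 100000) :=
      mul_le_mul_of_nonneg_left a2 (by linarith)
    rcases Nat.lt_or_ge J'.card 7 with hc | hc
    · have hc' : (J'.card : ℝ) ≤ 6 := by
        have : J'.card ≤ 6 := by omega
        exact_mod_cast this
      linarith
    · have hc' : (7 : ℝ) ≤ J'.card := by exact_mod_cast hc
      have hfc : (0:ℝ) ≤ (J.filter (fun z => ¬ x z < 64 / 100)).card := by positivity
      linarith
  have hfin : s * ∑ z ∈ J, x z ≤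
      ∑ z ∈ J, (ph s 3 - ph s (‖z‖ ^ 2)) + 9 / 20 * ∑ z ∈ J, cz J s z := by
    rw [Finset.mul_sum, Finset.mul_sum, ← Finset.sum_add_distrib]
    refine Finset.sum_le_sum fun z hz => ?_
    have := ph_loss hs (h1 z hz).le (h2 z hz).le
    simp only [hx]
    have e : s * (Dd (‖z‖ ^ 2) + 9 / 20 * (cz J s z / s)) =
        s * Dd (‖z‖ ^ 2) + 9 / 20 * cz J s z := by
      field_simp
    rw [e]
    linarith
  exact (mul_le_mul_of_nonneg_left hmain hs0.le).trans hfin

open Classical in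
/-- the gain at a point with neighbours `J` -/
noncomputable def gm (J : Finset ℂ) : ℝ :=
  if J.card ≤ 5 then 4 / 10 + 1 / 10 * ∑ z ∈ J, (‖z‖ ^ 2 - 3) ^ 2 else
    if J.card = 6 then 1 / 10 * ∑ z ∈ J, (‖z‖ ^ 2 - 3) ^ 2 else 5 / 1000

include hs h1 h2 hsep in
/-- **Local inequality.** -/
theorem local_ineq : ∑ z ∈ J, ph s (‖z‖ ^ 2) + s * gm J ≤
    6 * ph s 3 + 9 / 20 * ∑ z ∈ J, cz J s z := by
  classical
  have hs0 : 0 < s := by linarith
  obtain ⟨a1, a2⟩ := A_bounds
  have hcz : 0 ≤ ∑ z ∈ J, cz J s z := Finset.sum_nonneg fun z hz => cz_nonneg hs hsep hz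
  have htan : ∑ z ∈ J, ph s (‖z‖ ^ 2) + s / 10 * ∑ z ∈ J, (‖z‖ ^ 2 - 3) ^ 2 ≤
      J.card * ph s 3 := by
    rw [Finset.mul_sum, ← Finset.sum_add_distrib, ← nsmul_eq_mul, ← Finset.sum_const]
    refine Finset.sum_le_sum fun z hz => ?_
    exact ph_tan (by linarith) (by linarith [h1 z hz]) (h2 z hz).le
  have h3 : 4 / 10 * s ≤ ph s 3 := by
    rw [ph_three_eq]
    nlinarith
  unfold gm
  split_ifs with c1 c2
  · have : (J.card : ℝ) ≤ 5 := by exact_mod_cast c1
    have : (J.card : ℝ) * ph s 3 ≤ 5 * ph s 3 := mul_le_mul_of_nonneg_right this (by linarith)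
    linarith
  · rw [c2] at htan
    push_cast at htan
    linarith
  · have h := local_seven hs h1 h2 hsep (by omega)
    rw [Finset.sum_sub_distrib, Finset.sum_const, nsmul_eq_mul] at h
    have e : ((J.card : ℝ)) * ph s 3 = 6 * ph s 3 + ((J.card : ℝ) - 6) * ph s 3 := by ring
    rw [e] at h
    have h7 : (7:ℝ) ≤ J.card := by
      have : 7 ≤ J.card := by omega
      exact_mod_cast this
    have e2 : ((J.card : ℝ) - 6) * ph s 3 = s * (((J.card : ℝ) - 6) * (4 * √3 * P 3)) -
        ((J.card : ℝ) - 6) := by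
      rw [ph_three_eq]; ring
    rw [e2] at h
    linarith

end

end Pool.Agent.H96.NU
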