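import Pool.Agent.H96.NU.Full

/-!
# Exact optimality: the inequality in the normalisation
-/

set_option autoImplicit false
set_option linter.unusedSectionVars false

open Real Set
open scoped ENNReal

namespace Pool.Agent.H96.NU

open Pool.Agent.H96.UO hiding first_shell

section

variable {α : Type*} [Fintype α] [DecidableEq α] {L : Submodule ℤ ℂ} [DiscreteTopology L]
  [IsZLattice ℝ L] {x : α → ℂ} (hx : ∀ i j, x i - x j ∈ L → i = j)
  (hcov : ZLattice.covolume L = (Fintype.card α : ℝ) * (3 * √3 / 2))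

include hx hcov

open Classical in
theorem norm_ineq' {g : ℝ → ℝ} {s : ℝ} (hg : Pt g s) (hs : 151 / 25 ≤ s) : ∃ K : Finset α,
    Sep L (fun i : K => x i) ∧
    (Fintype.card α : ℝ≥0∞) *
      ∑' p : ℤ × ℤ, (if p = 0 then 0 else ENNReal.ofReal (g (3 * qf p.1 p.2))) +
      ENNReal.ofReal (s / 100000 * (((Fintype.card α : ℝ) - Fintype.card K) +
        nbad L (fun i : K => x i) + S2 L (fun i : K => x i)) * g 3) ≤
      ∑ i, ∑ j, ∑' v : L, (if x i - x j + v = 0 then 0 else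
        ENNReal.ofReal (g (‖x i - x j + v‖ ^ 2))) := by
  have h0 : ∑ i, ∑' z, {z | z ∈ Vec L x i ∧ z ≠ 0}.indicator
        (fun z => ENNReal.ofReal (g (‖z‖ ^ 2))) z ≤ ∑ i, ∑ j, ∑' v : L,
        (if x i - x j + v = 0 then 0 else ENNReal.ofReal (g (‖x i - x j + v‖ ^ 2))) :=
    Finset.sum_le_sum fun i _ => vec_le (fun z => ENNReal.ofReal (g (‖z‖ ^ 2)))
      (fun z => by simp only [norm_neg]) i
  obtain ⟨K, hS, hK⟩ := full_bound' hx hcov hg hs
  refine ⟨K, hS, ?_⟩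
  refine le_trans ?_ h0
  set R := ∑ i, ∑' z, {z | z ∈ Vec L x i ∧ z ≠ 0}.indicator
        (fun z => ENNReal.ofReal (g (‖z‖ ^ 2))) z with hR
  set N : ℝ≥0∞ := (Fintype.card α : ℝ≥0∞) with hN
  have hg3 : 0 ≤ g 3 := hg.pos 3 (by norm_num)
  set δ := s / 100000 * (((Fintype.card α : ℝ) - Fintype.card K) +
        nbad L (fun i : K => x i) + S2 L (fun i : K => x i)) * g 3 with hδ
  have hδ0 : 0 ≤ δ := by
    have h1 : (Fintype.card K : ℝ) ≤ (Fintype.card α : ℝ) := by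
      rw [Fintype.card_coe]
      exact_mod_cast Finset.card_le_univ K
    have h2 := S2_nonneg L (fun i : K => x i)
    have h3 : 0 ≤ (Fintype.card α : ℝ) - Fintype.card K := by linarith
    positivity
  clear_value δ
  have hg0 : ∀ q : ℕ, 1 ≤ q → 0 ≤ g (3 * q) := by
    intro q hq
    have : (1:ℝ) ≤ q := by exact_mod_cast hq
    exact hg.pos _ (by positivity)
  have hqpos : ∀ v : ℕ × ℕ, 1 ≤ v.1 → 1 ≤ qn v := by
    intro v hv
    unfold qn
    nlinarith
  have hfin : ∀ W : Finset (ℕ × ℕ), (∀ v ∈ W, 1 ≤ v.1 ∧ v ≠ (1, 0)) →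
      N * (6 * ENNReal.ofReal (g 3) + ∑ v ∈ W, 6 * ENNReal.ofReal (g (3 * qn v))) +
        ENNReal.ofReal δ ≤ R := by
    intro W hW
    refine le_trans (le_of_eq ?_) (hK W hW)
    have hWn : ∀ v ∈ W, 0 ≤ 6 * g (3 * qn v) := fun v hv =>
      mul_nonneg (by norm_num) (hg0 _ (hqpos v (hW v hv).1))
    have hs6 : 0 ≤ 6 * g 3 + ∑ v ∈ W, 6 * g (3 * qn v) :=
      add_nonneg (by positivity) (Finset.sum_nonneg hWn)
    rw [ENNReal.ofReal_add (mul_nonneg (by positivity) hs6) hδ0, ENNReal.ofReal_mul (by positivity),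
      ENNReal.ofReal_natCast, ENNReal.ofReal_add
      (by positivity) (Finset.sum_nonneg hWn), ENNReal.ofReal_sum_of_nonneg hWn,
      ENNReal.ofReal_mul (by norm_num)]
    congr 3
    · norm_num
    · refine Finset.sum_congr rfl fun v _ => ?_
      rw [ENNReal.ofReal_mul (by norm_num)]
      norm_num
  have h1 := hex_le fun t => ENNReal.ofReal (g t)
  refine (add_le_add (mul_le_mul_right h1 N) le_rfl).trans ?_
  rw [← mul_assoc, ← ENNReal.tsum_mul_left, ENNReal.tsum_eq_iSup_sum, ENNReal.iSup_add]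
  refine iSup_le fun A => ?_
  set W : Finset (ℕ × ℕ) := (A.map (Function.Embedding.subtype _)).erase (1, 0) with hWd
  have hW : ∀ v ∈ W, 1 ≤ v.1 ∧ v ≠ (1, 0) := by
    intro v hv
    rw [hWd, Finset.mem_erase, Finset.mem_map] at hv
    obtain ⟨h1, a, _, rfl⟩ := hv
    exact ⟨a.2, h1⟩
  refine le_trans (add_le_add ?_ le_rfl) (hfin W hW)
  have e1 : ∑ v ∈ A, N * 6 * ENNReal.ofReal (g (3 * qn v)) =
      ∑ v ∈ A.map (Function.Embedding.subtype _), N * 6 * ENNReal.ofReal (g (3 * qn v)) := by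
    rw [Finset.sum_map]
    rfl
  rw [e1]
  have e2 : ∑ v ∈ A.map (Function.Embedding.subtype _), N * 6 * ENNReal.ofReal (g (3 * qn v)) ≤
      ∑ v ∈ insert (1, 0) W, N * 6 * ENNReal.ofReal (g (3 * qn v)) := by
    refine Finset.sum_le_sum_of_subset ?_
    intro v hv
    rw [hWd]
    by_cases h : v = (1, 0)
    · exact Finset.mem_insert.mpr (Or.inl h)
    · exact Finset.mem_insert.mpr (Or.inr (Finset.mem_erase.mpr ⟨h, hv⟩))
  refine e2.trans (le_of_eq ?_)
  rw [Finset.sum_insert (by rw [hWd]; exact Finset.notMem_erase _ _)]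
  have e3 : ((qn (1, 0) : ℕ) : ℝ) = 1 := by norm_num [qn]
  rw [e3, mul_one, mul_add, Finset.mul_sum, mul_assoc]
  congr 1
  refine Finset.sum_congr rfl fun v _ => ?_
  rw [mul_assoc]

end

/-- the hexagonal sum is finite -/
theorem hex_finite' {g : ℝ → ℝ} {s : ℝ} (hg : Pt g s) :
    ∑' p : ℤ × ℤ, (if p = 0 then 0 else ENNReal.ofReal (g (3 * qf p.1 p.2))) ≠ ⊤ := by
  have h1 := hex_le fun t => ENNReal.ofReal (g t)
  refine ne_top_of_le_ne_top ?_ h1
  refine ENNReal.mul_ne_top (by norm_num) ?_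
  have hg3 : 0 ≤ g 3 := hg.pos 3 (by norm_num)
  have hg0 : ∀ v : ℕ × ℕ, 1 ≤ v.1 → 0 ≤ g (3 * qn v) := by
    intro v hv
    have : 1 ≤ qn v := by
      unfold qn
      nlinarith
    have : (1:ℝ) ≤ qn v := by exact_mod_cast this
    exact hg.pos _ (by positivity)
  have h2 : ∑' v : {v : ℕ × ℕ // 1 ≤ v.1}, ENNReal.ofReal (g (3 * qn v)) ≤
      ENNReal.ofReal (g 3 + g 3) := by
    rw [ENNReal.tsum_eq_iSup_sum]
    refine iSup_le fun A => ?_
    set W : Finset (ℕ × ℕ) := (A.map (Function.Embedding.subtype _)).erase (1, 0) with hWd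
    have hW : ∀ v ∈ W, 1 ≤ v.1 ∧ v ≠ (1, 0) := by
      intro v hv
      rw [hWd, Finset.mem_erase, Finset.mem_map] at hv
      obtain ⟨h1, a, _, rfl⟩ := hv
      exact ⟨a.2, h1⟩
    have e1 : ∑ v ∈ A, ENNReal.ofReal (g (3 * qn v)) =
        ∑ v ∈ A.map (Function.Embedding.subtype _), ENNReal.ofReal (g (3 * qn v)) := by
      rw [Finset.sum_map]
      rfl
    rw [e1]
    have e2 : ∑ v ∈ A.map (Function.Embedding.subtype _), ENNReal.ofReal (g (3 * qn v)) ≤
        ∑ v ∈ insert (1, 0) W, ENNReal.ofReal (g (3 * qn v)) := by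
      refine Finset.sum_le_sum_of_subset ?_
      intro v hv
      rw [hWd]
      by_cases h : v = (1, 0)
      · exact Finset.mem_insert.mpr (Or.inl h)
      · exact Finset.mem_insert.mpr (Or.inr (Finset.mem_erase.mpr ⟨h, hv⟩))
    refine e2.trans ?_
    rw [Finset.sum_insert (by rw [hWd]; exact Finset.notMem_erase _ _)]
    have e3 : ((qn (1, 0) : ℕ) : ℝ) = 1 := by norm_num [qn]
    rw [e3, mul_one, ENNReal.ofReal_add hg3 hg3, ← ENNReal.ofReal_sum_of_nonneg
      fun v hv => hg0 v (hW v hv).1]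
    refine add_le_add le_rfl (ENNReal.ofReal_le_ofReal ?_)
    calc ∑ v ∈ W, g (3 * qn v) ≤ ∑ v ∈ W, g (3 * qn v) * ((v.1 + v.2 : ℕ) : ℝ) ^ 8 := by
          refine Finset.sum_le_sum fun v hv => ?_
          have h3 := hg0 v (hW v hv).1
          have h4 : (1:ℝ) ≤ ((v.1 + v.2 : ℕ) : ℝ) := by
            have := (hW v hv).1
            have : 1 ≤ v.1 + v.2 := by omega
            exact_mod_cast this
          have h5 : (1:ℝ) ≤ ((v.1 + v.2 : ℕ) : ℝ) ^ 8 := one_le_pow₀ h4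
          nlinarith
      _ ≤ g 3 * (152 / 10 ^ 13) := sum_tail_le' hg W hW
      _ ≤ g 3 := by nlinarith
  exact ne_top_of_le_ne_top ENNReal.ofReal_ne_top h2

end Pool.Agent.H96.NU
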