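import Pool.Agent.H96.NU.Norm
import Pool.Agent.H96.UO.Pots

/-!
# Exact optimality: steep log-convex potentials
-/

set_option autoImplicit false
set_option linter.unusedSectionVars false

open Real Set Filter
open scoped ENNReal

namespace Pool.Agent.H96.NU

open Pool.Agent.H96.UO hiding first_shell Steep

/-- Steep log-convex potentials: `g > 0` and `log g` is convex on `(0, ∞)`,
`g t ≥ g A * exp (18.13 (1 - t / A))` for `0 < t ≤ A`, and `g (q A) ≤ q ^ (-28) * g A` for
`q = 3, 4, 5, ...`. -/
structure Steep (g : ℝ → ℝ) (A : ℝ) : Prop where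
  pos : ∀ t, 0 < t → 0 < g t
  conv : ConvexOn ℝ (Ioi 0) fun t => log (g t)
  near : ∀ t, 0 < t → t ≤ A → g A * exp (1813 / 100 * (1 - t / A)) ≤ g t
  far : ∀ q : ℕ, 3 ≤ q → g (q * A) * (q : ℝ) ^ 28 ≤ g A

section

variable {h : ℝ → ℝ}

theorem tangent_line_left (hh : ConvexOn ℝ (Ioi 0) h) {a t : ℝ} (ha : 0 < a) (ht : 0 < t) :
    h a + derivWithin h (Iio a) a * (t - a) ≤ h t := by
  have hint : a ∈ interior (Ioi (0:ℝ)) := by rw [interior_Ioi]; exact ha
  rcases lt_trichotomy t a with h1 | h1 | h1
  · have h2 := hh.slope_le_leftDeriv_of_mem_interior (x := t) (y := a) ht hint h1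
    rw [slope_def_field, div_le_iff₀ (by linarith)] at h2
    linarith
  · rw [h1]; simp
  · have h2 := hh.rightDeriv_le_slope_of_mem_interior hint (y := t) ht h1
    have h3 := (hh.leftDeriv_le_rightDeriv_of_mem_interior hint).trans h2
    rw [slope_def_field, le_div_iff₀ (by linarith)] at h3
    linarith

end

section

variable {g : ℝ → ℝ}

theorem log_far (hg : Steep g 3) (q : ℕ) (hq : 3 ≤ q) :
    log (g (3 * q)) + 28 * log q ≤ log (g 3) := by
  have hq0 : (0:ℝ) < q := by
    have : 0 < q := by omega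
    exact_mod_cast this
  have h1 := hg.far q hq
  rw [mul_comm (q:ℝ) 3] at h1
  have h2 := hg.pos (3 * q) (by positivity)
  have := log_le_log (mul_pos h2 (pow_pos hq0 _)) h1
  rw [log_mul h2.ne' (by positivity), log_pow] at this
  exact_mod_cast this

/-- the right derivative is nonpositive -/
theorem rightDeriv_nonpos (hg : Steep g 3) {a : ℝ} (ha : 0 < a) :
    derivWithin (fun t => log (g t)) (Ioi a) a ≤ 0 := by
  by_contra hcon
  push Not at hcon
  set r := derivWithin (fun t => log (g t)) (Ioi a) a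
  have h1 : Tendsto (fun q : ℕ => 28 * log (q:ℝ)) atTop atTop :=
    (tendsto_log_atTop.comp tendsto_natCast_atTop_atTop).const_mul_atTop (by norm_num)
  obtain ⟨q, hq1, hq2⟩ := ((h1.eventually_gt_atTop (log (g 3) - log (g a))).and
    ((eventually_ge_atTop 3).and (eventually_ge_atTop ⌈a⌉₊))).exists
  have hqa : a ≤ q := (Nat.le_ceil a).trans (by exact_mod_cast hq2.2)
  have h2 := tangent_line hg.conv (a := a) (t := 3 * q) ha (by linarith)
  have h3 := log_far hg q hq2.1
  have h4 : 0 ≤ r * (3 * q - a) := mul_nonneg hcon.le (by linarith)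
  linarith

theorem exists_pt (hg : Steep g 3) : ∃ s, 151 / 25 ≤ s ∧ Pt g s := by
  set D : ℝ → ℝ := fun a => derivWithin (fun t => log (g t)) (Ioi a) a with hD
  set D3 := derivWithin (fun t => log (g t)) (Iio 3) 3 with hD3
  have hint : (3:ℝ) ∈ interior (Ioi (0:ℝ)) := by rw [interior_Ioi]; norm_num
  have hmono : ∀ a, 3 ≤ a → D3 ≤ D a := by
    intro a ha
    refine (hg.conv.leftDeriv_le_rightDeriv_of_mem_interior hint).trans
      (hg.conv.monotoneOn_rightDeriv hint ?_ ha)
    rw [interior_Ioi]; exact lt_of_lt_of_le (by norm_num) ha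
  refine ⟨-D3, ?_, ?_⟩
  · have h1 : D3 ≤ -(151 / 25) := by
      rw [hD3, hg.conv.leftDeriv_eq_sSup_slope_of_mem_interior hint]
      refine csSup_le ⟨_, ⟨1, ⟨by norm_num, by norm_num⟩, rfl⟩⟩ ?_
      rintro _ ⟨t, ⟨ht0, ht3⟩, rfl⟩
      have ht0' : 0 < t := ht0
      have h2 := hg.near t ht0' ht3.le
      have h3 := log_le_log (mul_pos (hg.pos 3 (by norm_num)) (exp_pos _)) h2
      rw [log_mul (hg.pos 3 (by norm_num)).ne' (exp_pos _).ne', log_exp] at h3
      rw [slope_comm, slope_def_field, div_le_iff₀ (by linarith)]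
      linarith
    linarith
  · refine ⟨fun t ht => (hg.pos t ht).le, ?_, ?_, ?_⟩
    · intro t ht
      have h1 := tangent_line_left hg.conv (a := 3) (by norm_num) ht
      have h2 := exp_le_exp.mpr h1
      rw [exp_add, exp_log (hg.pos 3 (by norm_num)), exp_log (hg.pos t ht)] at h2
      refine le_trans (le_of_eq ?_) h2
      congr 2
      ring
    · intro q hq
      have hq3 : (3:ℝ) ≤ q := by exact_mod_cast hq
      refine ⟨-D (3 * q), ?_, ?_, ?_⟩
      · have := rightDeriv_nonpos hg (a := 3 * q) (by linarith)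
        simp only [hD]
        linarith
      · have := hmono (3 * q) (by linarith)
        linarith
      · intro t ht
        have hq0 : (0:ℝ) < 3 * q := by linarith
        have h1 := tangent_line hg.conv hq0 ht
        have h2 := exp_le_exp.mpr h1
        rw [exp_add, exp_log (hg.pos _ hq0), exp_log (hg.pos t ht)] at h2
        refine le_trans ?_ h2
        refine mul_le_mul_of_nonneg_left ?_ (hg.pos _ hq0).le
        have h3 := add_one_le_exp (derivWithin (fun t => log (g t)) (Ioi (3 * (q:ℝ))) (3 * q) *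
          (t - 3 * q))
        refine le_trans (le_of_eq ?_) h3
        simp only [hD]
        ring
    · intro q hq
      have := hg.far q hq
      rwa [mul_comm (q:ℝ) 3] at this

theorem Steep.scale {A : ℝ} (hA : 0 < A) (hg : Steep g A) :
    Steep (fun t => g (A / 3 * t)) 3 := by
  have hc : 0 < A / 3 := by positivity
  refine ⟨fun t ht => hg.pos _ (by positivity), ?_, ?_, ?_⟩
  · refine ⟨convex_Ioi 0, fun x hx y hy a b ha hb hab => ?_⟩
    have hx' : (0:ℝ) < x := hx
    have hy' : (0:ℝ) < y := hy
    have := hg.conv.2 (show A / 3 * x ∈ Ioi 0 from mul_pos hc hx')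
      (show A / 3 * y ∈ Ioi 0 from mul_pos hc hy') ha hb hab
    simp only [smul_eq_mul] at this ⊢
    have e : A / 3 * (a * x + b * y) = a * (A / 3 * x) + b * (A / 3 * y) := by ring
    rw [e]
    exact this
  · intro t ht ht3
    have h1 := hg.near (A / 3 * t) (by positivity) (by
      have : A / 3 * t ≤ A / 3 * 3 := by gcongr
      linarith)
    have e1 : A / 3 * 3 = A := by ring
    have e2 : A / 3 * t / A = t / 3 := by field_simp
    rw [e2] at h1
    rw [e1]
    exact h1
  · intro q hq
    have h1 := hg.far q hq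
    have e1 : A / 3 * (q * 3) = q * A := by ring
    have e2 : A / 3 * 3 = A := by ring
    rw [e1, e2]
    exact h1

end

end Pool.Agent.H96.NU
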