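import Pool.Agent.H96.NU.Final
import Pool.Agent.H96.UO.Riesz3

/-!
# Periodic Riesz energies in the plane, `s ≥ 56`
-/

set_option autoImplicit false
set_option linter.unusedSectionVars false

open Real Set Filter Topology
open scoped ENNReal

namespace Pool.Agent.H96.NU

open Pool.Agent.H96.UO hiding first_shell Steep Steep.scale steep steep_gauss steep_rpow tot_ge Ep_ge Ep_grid grid_optimal EpMin_le tendsto_EpMin

section

variable {L : Submodule ℤ ℂ} [DiscreteTopology L] [IsZLattice ℝ L] {N : ℕ} {x : Fin N → ℂ}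

/-- **the real inequality** -/
theorem tot_ge {s : ℝ} (hs : 56 ≤ s) (hN : 0 < N) (hL : ZLattice.covolume L = 1)
    (hx : ∀ i j, x i - x j ∈ L → i = j) :
    (N:ℝ) ^ (1 + s / 2) * zetaL s V2 ≤ tot s L x ∧
      (tot s L x = (N:ℝ) ^ (1 + s / 2) * zetaL s V2 ↔ IsHex L x (2 / √3 * (1 / N))) := by
  have hs2 : 2 < s := by linarith
  have hNR : (0:ℝ) < N := by exact_mod_cast hN
  have hN' : (N : ℝ≥0∞) ≠ 0 := by exact_mod_cast hN.ne'
  obtain ⟨h1, -, h3⟩ := steep (L := L) hN hx (g := fun t => t ^ (-s / 2))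
    (A := 2 / √3 * (1 / N)) (by rw [hL]) (steep_rpow hs (by positivity))
  rw [energy_tot hs2 hx, hexEnergy_scale hs2 hN] at h1 h3
  have hz := zetaL_nonneg (L := V2) s
  have ht := tot_nonneg (L := L) (x := x) s
  have e1 : (N:ℝ) ^ (1 + s / 2) * zetaL s V2 = N * ((N:ℝ) ^ (s / 2) * zetaL s V2) := by
    rw [rpow_add hNR, rpow_one, mul_assoc]
  have e2 : ENNReal.ofReal (tot s L x) / N = ENNReal.ofReal (tot s L x / N) := by
    rw [ENNReal.ofReal_div_of_pos hNR, ENNReal.ofReal_natCast]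
  rw [e2] at h1 h3
  have h4 := (ENNReal.ofReal_le_ofReal_iff (by positivity)).mp h1
  rw [le_div_iff₀ hNR] at h4
  refine ⟨by rw [e1]; linarith, ?_⟩
  rw [← h3, e1, ENNReal.ofReal_eq_ofReal_iff (by positivity) (by positivity), div_eq_iff hNR.ne']
  constructor
  · intro h; rw [h]; ring
  · intro h; rw [h]; ring

theorem Ep_ge {s : ℝ} (hs : 56 ≤ s) (hN : 0 < N) (hL : ZLattice.covolume L = 1)
    (x : Fin N → ℂ) : (optVal s L N : EReal) ≤ Ep s L x ∧
      (Ep s L x = optVal s L N ↔ (∀ i j, x i - x j ∈ L → i = j) ∧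
        IsHex L x (2 / √3 * (1 / N))) := by
  by_cases hx : ∀ i j, x i - x j ∈ L → i = j
  · obtain ⟨h1, h2⟩ := tot_ge hs hN hL hx
    have h3 := Ep_coe s hx
    have h4 : ∑ i, ∑ j, (if i = j then 0 else pairE s L (x i - x j)) = tot s L x -
        N * zetaL s L := by unfold tot; ring
    rw [h4] at h3
    rw [h3]
    refine ⟨?_, ?_⟩
    · rw [EReal.coe_le_coe_iff]
      unfold optVal
      linarith
    · rw [EReal.coe_eq_coe_iff, ← h2]
      unfold optVal
      constructor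
      · intro h
        exact ⟨hx, by linarith⟩
      · rintro ⟨-, h⟩
        rw [h]
  · have hx' := hx
    push Not at hx
    obtain ⟨i, j, h, hij⟩ := hx
    rw [Ep_top s hij h]
    refine ⟨le_top, ⟨fun h => ?_, fun h => absurd h.1 hx'⟩⟩
    exact absurd h.symm (EReal.coe_ne_top _)

end


section

variable {m : ℕ}

theorem Ep_grid {s : ℝ} (hs : 56 ≤ s) (hm : 0 < m) :
    Ep s V2 (grid m) = optVal s V2 (m ^ 2) := by
  have hN : 0 < m ^ 2 := by positivity
  exact (Ep_ge hs hN covolume_V2 (grid m)).2.mpr ⟨grid_distinct hm, grid_isHex hm⟩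

/-- **the grids are optimal** -/
theorem grid_optimal {s : ℝ} (hs : 56 ≤ s) (hm : 0 < m) :
    Ep s V2 (grid m) = EpMin s V2 Om2 (m ^ 2) := by
  have hN : 0 < m ^ 2 := by positivity
  apply le_antisymm
  · unfold EpMin
    refine le_iInf fun x => ?_
    rw [Ep_grid hs hm]
    exact (Ep_ge hs hN covolume_V2 _).1
  · unfold EpMin
    exact iInf_le (fun x : Fin (m ^ 2) → Om2 => Ep s V2 fun i => (x i : ℂ))
      fun i => ⟨grid m i, (grid_mem hm i).1⟩

end

/-- upper bound for the minimal energy of any number of points -/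
theorem EpMin_le {s : ℝ} (hs : 56 ≤ s) {m N : ℕ} (hm : 0 < m) (hNm : N ≤ m ^ 2) :
    EpMin s V2 Om2 N ≤ ((((m ^ 2 : ℕ) : ℝ) ^ (1 + s / 2) * zetaL s V2 : ℝ) : EReal) := by
  have hs2 : 2 < s := by linarith
  have h1 : EpMin s V2 Om2 N ≤ Ep s V2 (fun i => grid m (Fin.castLE hNm i)) :=
    iInf_le (fun x : Fin N → Om2 => Ep s V2 fun i => (x i : ℂ))
      fun i => ⟨grid m (Fin.castLE hNm i), (grid_mem hm _).1⟩
  refine h1.trans ?_
  rw [Ep_coe s (x := fun i => grid m (Fin.castLE hNm i)) fun i j h =>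
    Fin.castLE_injective hNm (grid_distinct hm _ _ h), EReal.coe_le_coe_iff]
  have h2 : ∑ i : Fin N, ∑ j : Fin N, (if i = j then 0 else
      pairE s V2 (grid m (Fin.castLE hNm i) - grid m (Fin.castLE hNm j))) ≤
      ∑ i, ∑ j, (if i = j then 0 else pairE s V2 (grid m i - grid m j)) := by
    have h0 : ∀ i j : Fin (m ^ 2), 0 ≤ (if i = j then 0 else pairE s V2 (grid m i - grid m j)) := by
      intro i j
      split_ifs
      · exact le_rfl
      · exact pairE_nonneg s _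
    refine le_trans (Finset.sum_le_sum fun i _ => ?_) (sum_castLE hNm
      (fun i => ∑ j, (if i = j then 0 else pairE s V2 (grid m i - grid m j)))
      fun i => Finset.sum_nonneg fun j _ => h0 i j)
    refine le_trans (Finset.sum_le_sum fun j _ => le_of_eq ?_) (sum_castLE hNm
      (fun j => (if Fin.castLE hNm i = j then 0 else
        pairE s V2 (grid m (Fin.castLE hNm i) - grid m j))) fun j => h0 _ j)
    by_cases hij : i = j
    · rw [if_pos hij, if_pos (by rw [hij])]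
    · rw [if_neg hij, if_neg fun h => hij (Fin.castLE_injective hNm h)]
  have hN : 0 < m ^ 2 := by positivity
  have h3 := (tot_ge hs hN covolume_V2 (grid_distinct hm)).2.mpr (grid_isHex hm)
  have h4 : ∑ i, ∑ j, (if i = j then 0 else pairE s V2 (grid m i - grid m j)) ≤
      tot s V2 (grid m) := by
    unfold tot
    have := mul_nonneg (Nat.cast_nonneg (α := ℝ) (m ^ 2)) (zetaL_nonneg (L := V2) s)
    linarith
  have h5 : 0 ≤ (N:ℝ) * (N - 1) * cs s := by
    have h6 := cs_nonneg hs2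
    rcases Nat.eq_zero_or_pos N with h | h
    · rw [h]; simp
    · have : (1:ℝ) ≤ N := by exact_mod_cast h
      have : 0 ≤ (N:ℝ) - 1 := by linarith
      positivity
  linarith

/-- **the value of `C_{s,2}`** -/
theorem tendsto_EpMin {s : ℝ} (hs : 56 ≤ s) :
    (∀ N : ℕ, 0 < N → ∃ r : ℝ, EpMin s V2 Om2 N = r) ∧
    Tendsto (fun N : ℕ => (EpMin s V2 Om2 N).toReal / (N:ℝ) ^ (1 + s / 2)) atTop
      (𝓝 (zetaL s V2)) := by
  have hs2 : 2 < s := by linarith
  have hlow : ∀ N : ℕ, 0 < N → (optVal s V2 N : EReal) ≤ EpMin s V2 Om2 N := fun N hN => by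
    unfold EpMin
    exact le_iInf fun x => (Ep_ge hs hN covolume_V2 _).1
  have hup : ∀ N : ℕ, EpMin s V2 Om2 N ≤
      (((((Nat.sqrt N + 1) ^ 2 : ℕ) : ℝ) ^ (1 + s / 2) * zetaL s V2 : ℝ) : EReal) := fun N =>
    EpMin_le hs (Nat.succ_pos _) (Nat.lt_succ_sqrt' N).le
  have hreal : ∀ N : ℕ, 0 < N → ((EpMin s V2 Om2 N).toReal : EReal) = EpMin s V2 Om2 N := by
    intro N hN
    apply EReal.coe_toReal
    · exact ne_top_of_le_ne_top (EReal.coe_ne_top _) (hup N)
    · intro h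
      have := hlow N hN
      rw [h, le_bot_iff] at this
      exact EReal.coe_ne_bot _ this
  refine ⟨fun N hN => ⟨_, (hreal N hN).symm⟩, ?_⟩
  have hz := zetaL_nonneg (L := V2) s
  have hc := cs_nonneg hs2
  have t1 : Tendsto (fun N : ℕ => zetaL s V2 - (zetaL s V2 + cs s) * (N:ℝ) ^ (-(s / 2 - 1)))
      atTop (𝓝 (zetaL s V2)) := by
    have h1 : Tendsto (fun N : ℕ => (N:ℝ) ^ (-(s / 2 - 1))) atTop (𝓝 0) :=
      (tendsto_rpow_neg_atTop (by linarith : 0 < s / 2 - 1)).comp tendsto_natCast_atTop_atTop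
    have h2 := (h1.const_mul (zetaL s V2 + cs s)).const_sub (zetaL s V2)
    simpa using h2
  have t2 : Tendsto (fun N : ℕ => ((1 + 1 / √(N:ℝ)) ^ 2) ^ (1 + s / 2) * zetaL s V2)
      atTop (𝓝 (zetaL s V2)) := by
    have h1 : Tendsto (fun N : ℕ => 1 / √(N:ℝ)) atTop (𝓝 0) :=
      (tendsto_const_nhds.div_atTop (tendsto_sqrt_atTop.comp tendsto_natCast_atTop_atTop))
    have h2 : Tendsto (fun N : ℕ => (1 + 1 / √(N:ℝ)) ^ 2) atTop (𝓝 ((1 + 0) ^ 2)) :=
      (h1.const_add 1).pow 2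
    have h3 := (h2.rpow_const (p := 1 + s / 2) (Or.inl (by norm_num))).mul_const (zetaL s V2)
    simpa using h3
  refine tendsto_of_tendsto_of_tendsto_of_le_of_le' t1 t2 ?_ ?_
  · filter_upwards [eventually_gt_atTop 0] with N hN
    have hNR : (0:ℝ) < N := by exact_mod_cast hN
    have hN1 : (1:ℝ) ≤ N := by exact_mod_cast hN
    have h1 := hlow N hN
    rw [← hreal N hN, EReal.coe_le_coe_iff] at h1
    rw [le_div_iff₀ (by positivity)]
    refine le_trans ?_ h1
    unfold optVal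
    have e1 : (N:ℝ) ^ (-(s / 2 - 1)) * (N:ℝ) ^ (1 + s / 2) = N ^ 2 := by
      rw [← rpow_add hNR]
      rw [show -(s / 2 - 1) + (1 + s / 2) = ((2:ℕ):ℝ) by push_cast; ring, rpow_natCast]
    have e2 : (zetaL s V2 - (zetaL s V2 + cs s) * (N:ℝ) ^ (-(s / 2 - 1))) * (N:ℝ) ^ (1 + s / 2) =
        (N:ℝ) ^ (1 + s / 2) * zetaL s V2 - (zetaL s V2 + cs s) * N ^ 2 := by
      rw [← e1]; ring
    rw [e2]
    nlinarith [mul_nonneg (mul_nonneg hNR.le (by linarith : (0:ℝ) ≤ N - 1)) hz,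
      mul_nonneg hNR.le hc]
  · filter_upwards [eventually_gt_atTop 0] with N hN
    have hNR : (0:ℝ) < N := by exact_mod_cast hN
    have h1 := hup N
    rw [← hreal N hN, EReal.coe_le_coe_iff] at h1
    rw [div_le_iff₀ (by positivity)]
    refine h1.trans ?_
    have hsq : (0:ℝ) < √(N:ℝ) := sqrt_pos.mpr hNR
    have e1 : (((Nat.sqrt N + 1) ^ 2 : ℕ) : ℝ) ≤ (1 + 1 / √(N:ℝ)) ^ 2 * N := by
      have h2 : ((Nat.sqrt N : ℕ) : ℝ) ≤ √(N:ℝ) := Real.nat_sqrt_le_real_sqrt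
      push_cast
      have e : (1 + 1 / √(N:ℝ)) ^ 2 * N = (√(N:ℝ) + 1) ^ 2 := by
        have h3 : (N:ℝ) = √(N:ℝ) ^ 2 := (sq_sqrt hNR.le).symm
        have h4 : (1 + 1 / √(N:ℝ)) ^ 2 * (√(N:ℝ) ^ 2) = (√(N:ℝ) + 1) ^ 2 := by
          field_simp
        calc (1 + 1 / √(N:ℝ)) ^ 2 * N = (1 + 1 / √(N:ℝ)) ^ 2 * (√(N:ℝ) ^ 2) := by rw [← h3]
          _ = _ := h4
      rw [e]
      gcongr
    calc (((Nat.sqrt N + 1) ^ 2 : ℕ) : ℝ) ^ (1 + s / 2) * zetaL s V2
        ≤ ((1 + 1 / √(N:ℝ)) ^ 2 * N) ^ (1 + s / 2) * zetaL s V2 := by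
          refine mul_le_mul_of_nonneg_right ?_ hz
          exact rpow_le_rpow (by positivity) e1 (by linarith)
      _ = ((1 + 1 / √(N:ℝ)) ^ 2) ^ (1 + s / 2) * zetaL s V2 * (N:ℝ) ^ (1 + s / 2) := by
          rw [mul_rpow (by positivity) hNR.le]
          ring

end Pool.Agent.H96.NU
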