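import Pool.Agent.H96.NU.Tail
import Pool.Agent.H96.UO.Full

/-!
# Exact optimality: two separated parts of a configuration
-/

set_option autoImplicit false
set_option linter.unusedSectionVars false

open Real Set
open Equiv (Perm)

namespace Pool.Agent.H96.NU

open Pool.Agent.H96.UO hiding first_shell

theorem exists_subset {α : Type*} [Fintype α] [DecidableEq α] {L : Submodule ℤ ℂ} {x : α → ℂ}
    (Q : ℂ → Prop) (hQ : ∀ z, Q z → Q (-z)) (K0 : Finset α) :
    ∃ K ⊆ K0, (∀ i ∈ K, ∀ j ∈ K, ∀ z, z - (x j - x i) ∈ L → z ≠ 0 → Q z) ∧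
      ∀ i ∈ K0, i ∉ K → ∃ j ∈ K0, ∃ z, z - (x j - x i) ∈ L ∧ z ≠ 0 ∧ ¬ Q z := by
  classical
  set p : Finset α → Prop := fun K => ∀ i ∈ K, ∀ j ∈ K, ∀ z, z - (x j - x i) ∈ L → z ≠ 0 → Q z
  have hne : (K0.powerset.filter p).Nonempty := by
    refine ⟨∅, ?_⟩
    rw [Finset.mem_filter]
    exact ⟨Finset.empty_mem_powerset _, fun i hi => absurd hi (Finset.notMem_empty _)⟩
  obtain ⟨K, hK, hmax⟩ := Finset.exists_max_image _ Finset.card hne
  rw [Finset.mem_filter, Finset.mem_powerset] at hK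
  refine ⟨K, hK.1, hK.2, fun i hi0 hi => ?_⟩
  by_contra hcon
  push Not at hcon
  have hS : p (insert i K) := by
    intro a ha b hb z hz hz0
    rcases Finset.mem_insert.mp ha with ha | ha
    · rw [ha] at hz
      refine hcon b ?_ z hz hz0
      rcases Finset.mem_insert.mp hb with hb | hb
      · rw [hb]; exact hi0
      · exact hK.1 hb
    · rcases Finset.mem_insert.mp hb with hb | hb
      · rw [hb] at hz
        have h1 : -z - (x a - x i) ∈ L := by
          have := L.neg_mem hz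
          have e : -(z - (x i - x a)) = -z - (x a - x i) := by ring
          rwa [e] at this
        have := hQ _ (hcon a (hK.1 ha) (-z) h1 (neg_ne_zero.mpr hz0))
        rwa [neg_neg] at this
      · exact hK.2 a ha b hb z hz hz0
  have h2 := hmax (insert i K) (by
    rw [Finset.mem_filter, Finset.mem_powerset]
    exact ⟨Finset.insert_subset hi0 hK.1, hS⟩)
  rw [Finset.card_insert_of_notMem hi] at h2
  omega

theorem gm_nonneg (J : Finset ℂ) : 0 ≤ gm J := by
  unfold gm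
  have : 0 ≤ ∑ z ∈ J, (‖z‖ ^ 2 - 3) ^ 2 := Finset.sum_nonneg fun _ _ => sq_nonneg _
  split_ifs <;> positivity

/-- the least angle between two neighbours -/
theorem angle_min {z w : ℂ} (hz : 27 / 10 ≤ ‖z‖ ^ 2) (hz4 : ‖z‖ ^ 2 ≤ 4) (hw : 27 / 10 ≤ ‖w‖ ^ 2)
    (hw4 : ‖w‖ ^ 2 ≤ 4) (hzw : 11 / 5 ≤ ‖z - w‖ ^ 2) :
    753 / 1000 ≤ InnerProductGeometry.angle z w := by
  have hp := pi_gt_three
  have hz0 : z ≠ 0 := by
    rintro rfl
    norm_num at hz
  have hw0 : w ≠ 0 := by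
    rintro rfl
    norm_num at hw
  have na := norm_nonneg z
  have nb := norm_nonneg w
  set a := ‖z‖ with ha
  set b := ‖w‖ with hb
  have ha2 : a ≤ 2 := by nlinarith
  have hb2 : b ≤ 2 := by nlinarith
  have ha1 : 164 / 100 ≤ a := by nlinarith
  have hb1 : 164 / 100 ≤ b := by nlinarith
  refine angle_ge hz0 hw0 (θ := 753 / 1000) (by linarith) cos_753 ?_
  have h5 : 0 ≤ (2 - a) * (b - 1) := mul_nonneg (by linarith) (by linarith)
  have h6 : 0 ≤ (2 - b) * (a - 1) := mul_nonneg (by linarith) (by linarith)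
  have h7 : 0 ≤ (2 - a) * (2 - b) := mul_nonneg (by linarith) (by linarith)
  have h8 : 0 ≤ (2 - a) * (a - 164 / 100) := mul_nonneg (by linarith) (by linarith)
  have h9 : 0 ≤ (2 - b) * (b - 164 / 100) := mul_nonneg (by linarith) (by linarith)
  nlinarith

theorem card_le_eight {J : Finset ℂ} (h1 : ∀ z ∈ J, 27 / 10 < ‖z‖ ^ 2)
    (h2 : ∀ z ∈ J, ‖z‖ ^ 2 < 4)
    (hsep : ∀ z ∈ J, ∀ w ∈ J, z ≠ w → 11 / 5 ≤ ‖z - w‖ ^ 2) : J.card ≤ 8 := by
  classical
  have hp := pi_gt_three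
  have h := arcs_total J (id : ℂ → ℂ) (fun _ => 753 / 2000)
    (fun z hz => by
      have := h1 z hz
      rintro h0
      simp only [id] at h0
      rw [h0] at this
      norm_num at this)
    (fun z _ => by norm_num) (fun z _ => by linarith)
    (fun z hz w hw hne => by
      have := angle_min (h1 z hz).le (h2 z hz).le (h1 w hw).le (h2 w hw).le (hsep z hz w hw hne)
      simp only [id]
      linarith)
  rw [Finset.sum_const, nsmul_eq_mul] at h
  by_contra hcon
  push Not at hcon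
  have h3 : (9:ℝ) ≤ J.card := by exact_mod_cast hcon
  have := pi_lt_d2
  linarith

section

variable {α : Type*} [Fintype α] [DecidableEq α] {L : Submodule ℤ ℂ} {x : α → ℂ}
  {K1 K2 : Finset α} (h21 : K2 ⊆ K1)
  (hS1 : Sp L (fun i : K1 => x i)) (hS2 : Sep L (fun i : K2 => x i))
  (hrem : ∀ i ∈ K1, i ∉ K2 → ∃ j ∈ K1, ∃ z, z - (x j - x i) ∈ L ∧ z ≠ 0 ∧ ¬ 17 / 10 ≤ ‖z‖)
  {Z1 : K1 → Finset ℂ}
  (hZ1 : ∀ i z, z ∈ Z1 i ↔ z ∈ Vec L (fun i : K1 => x i) i ∧ z ≠ 0 ∧ ‖z‖ < 2)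
  {Z2 : K2 → Finset ℂ}
  (hZ2 : ∀ i z, z ∈ Z2 i ↔ z ∈ Vec L (fun i : K2 => x i) i ∧ z ≠ 0 ∧ ‖z‖ < 2)

/-- the gain at a point -/
noncomputable def gi (Z1 : K1 → Finset ℂ) (i : K1) : ℝ := gm (Nf Z1 i) + 1 / 250 * ((Cf Z1 i).card : ℝ)

theorem gi_nonneg (i : K1) : 0 ≤ gi Z1 i := by
  unfold gi
  have := gm_nonneg (Nf Z1 i)
  positivity

theorem sum_gi : ∑ i, gi Z1 i = gain Z1 := by
  unfold gi gain
  rw [Finset.sum_add_distrib, Finset.mul_sum]

/-- the inclusion -/
def inc (h21 : K2 ⊆ K1) (i : K2) : K1 := ⟨i, h21 i.2⟩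

theorem inc_inj : Function.Injective (inc h21) := by
  intro i j h
  have := congrArg (fun k : K1 => (k : α)) h
  exact Subtype.ext this

theorem sum_inc_le (f : K1 → ℝ) (hf : ∀ i, 0 ≤ f i) : ∑ i : K2, f (inc h21 i) ≤ ∑ i, f i := by
  classical
  have h : ∑ i : K2, f (inc h21 i) = ∑ i ∈ Finset.univ.image (inc h21), f i := by
    rw [Finset.sum_image]
    intro a _ b _ hab
    exact inc_inj h21 hab
  rw [h]
  exact Finset.sum_le_sum_of_subset_of_nonneg (Finset.subset_univ _) fun i _ _ => hf i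

theorem vec_inc {i : K2} {z : ℂ} (h : z ∈ Vec L (fun i : K2 => x i) i) :
    z ∈ Vec L (fun i : K1 => x i) (inc h21 i) := by
  obtain ⟨j, hj⟩ := h
  exact ⟨inc h21 j, hj⟩

include hS1 hZ1 hrem in
/-- the gain at the points outside the second part -/
theorem gi_removed {i : K1} (hi : (i : α) ∉ K2) : 1 / 1000 ≤ gi Z1 i := by
  obtain ⟨j, hj, z, hz, hz0, hzn⟩ := hrem i i.2 hi
  push Not at hzn
  have hzV : z ∈ Vec L (fun i : K1 => x i) i := ⟨⟨j, hj⟩, hz⟩
  have hn := norm_nonneg z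
  have hgm := gm_nonneg (Nf Z1 i)
  unfold gi
  rcases le_or_gt (‖z‖ ^ 2) (27 / 10) with h | h
  · have h1 : z ∈ Cf Z1 i := (mem_Cf hS1 hZ1).mpr ⟨hzV, hz0, h⟩
    have h2 : (1:ℝ) ≤ (Cf Z1 i).card := by
      have : 0 < (Cf Z1 i).card := Finset.card_pos.mpr ⟨z, h1⟩
      exact_mod_cast this
    linarith
  · have h1 : z ∈ Nf Z1 i := (mem_Nf hZ1).mpr ⟨hzV, h, by nlinarith⟩
    have h2 : (‖z‖ ^ 2 - 3) ^ 2 ≤ ∑ z ∈ Nf Z1 i, (‖z‖ ^ 2 - 3) ^ 2 :=
      Finset.single_le_sum (f := fun z : ℂ => (‖z‖ ^ 2 - 3) ^ 2) (fun _ _ => sq_nonneg _) h1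
    have h3 : 1 / 100 ≤ (‖z‖ ^ 2 - 3) ^ 2 := by
      have : ‖z‖ ^ 2 ≤ 289 / 100 := by nlinarith
      nlinarith
    have h4 : 1 / 1000 ≤ gm (Nf Z1 i) := by
      unfold gm
      split_ifs <;> linarith
    have h5 : (0:ℝ) ≤ (Cf Z1 i).card := by positivity
    linarith

include h21 hS1 hS2 hZ1 hZ2 in
/-- a bad point with a small gain has a removed neighbour -/
theorem bad_charge {i : K2} (hb : ¬ gd L (fun i : K2 => x i) i)
    (hg : gi Z1 (inc h21 i) < 1 / 25000) :
    ∃ z ∈ Nf Z1 (inc h21 i), ((tg L (fun i : K1 => x i) (inc h21 i) z : K1) : α) ∉ K2 := by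
  classical
  by_contra hcon
  push Not at hcon
  set J := Nf Z1 (inc h21 i) with hJ
  have hgm := gm_nonneg J
  have hg' : gm J + 1 / 250 * ((Cf Z1 (inc h21 i)).card : ℝ) < 1 / 25000 := hg
  have hC : (Cf Z1 (inc h21 i)).card = 0 := by
    by_contra h0
    have : (1:ℝ) ≤ (Cf Z1 (inc h21 i)).card := by exact_mod_cast Nat.one_le_iff_ne_zero.mpr h0
    linarith
  have hgm2 : gm J < 1 / 25000 := by
    rw [hC] at hg'
    simpa using hg'
  have hC' : Cf Z1 (inc h21 i) = ∅ := Finset.card_eq_zero.mp hC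
  have hsumn : 0 ≤ ∑ z ∈ J, (‖z‖ ^ 2 - 3) ^ 2 := Finset.sum_nonneg fun _ _ => sq_nonneg _
  have h6 : J.card = 6 ∧ ∑ z ∈ J, (‖z‖ ^ 2 - 3) ^ 2 < 1 / 2500 := by
    unfold gm at hgm2
    split_ifs at hgm2 with c1 c2
    · linarith
    · exact ⟨c2, by linarith⟩
    · norm_num at hgm2
  have hnear : ∀ z ∈ J, |‖z‖ ^ 2 - 3| ≤ 1 / 50 := by
    intro z hz
    have h2 : (‖z‖ ^ 2 - 3) ^ 2 ≤ ∑ z ∈ J, (‖z‖ ^ 2 - 3) ^ 2 :=
      Finset.single_le_sum (f := fun z : ℂ => (‖z‖ ^ 2 - 3) ^ 2) (fun _ _ => sq_nonneg _) hz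
    refine abs_le_of_sq_le_sq ?_ (by norm_num)
    norm_num
    linarith
  have hZJ : Z2 i = J := by
    ext z
    constructor
    · intro hz
      obtain ⟨h1, h2, h3⟩ := (hZ2 i z).mp hz
      have h4 := vec_inc h21 h1
      have h5 : z ∈ Z1 (inc h21 i) := (hZ1 _ _).mpr ⟨h4, h2, h3⟩
      by_contra hzJ
      have h6' : z ∈ Cf Z1 (inc h21 i) := by
        rw [mem_Cf hS1 hZ1]
        refine ⟨h4, h2, ?_⟩
        by_contra hlt
        push Not at hlt
        exact hzJ ((mem_Nf hZ1).mpr ⟨h4, hlt, by nlinarith [norm_nonneg z]⟩)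
      rw [hC'] at h6'
      exact Finset.notMem_empty _ h6'
    · intro hz
      obtain ⟨h1, h2, h3⟩ := (mem_Nf hZ1).mp hz
      have h4 := hcon z hz
      have h5 := tg_spec h1
      refine (hZ2 i z).mpr ⟨⟨⟨_, h4⟩, h5⟩, ?_, by nlinarith [norm_nonneg z]⟩
      rintro rfl
      norm_num at h2
  have hlt : ∀ z ∈ Z2 i, ‖z‖ < 19 / 10 := by
    intro z hz
    rw [hZJ] at hz
    have := (abs_le.mp (hnear z hz)).2
    by_contra hcon2
    push Not at hcon2
    nlinarith
  have hfil : (Z2 i).filter (fun z => ‖z‖ < 19 / 10) = Z2 i := Finset.filter_true_of_mem hlt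
  refine hb (exists_good (hZ2 i) (Z_sep hS2 hZ2) ?_ ?_)
  · rw [hfil, hZJ]; exact h6.1
  · rw [hfil, hZJ]; exact hnear

include h21 hS1 hS2 hrem hZ1 hZ2 in
/-- **The number of bad points.** -/
theorem nbad_le : (nbad L (fun i : K2 => x i) : ℝ) ≤
    25000 * gain Z1 + 8 * ((K1.card : ℝ) - K2.card) := by
  classical
  set x1 : K1 → ℂ := fun i => x i with hx1
  set x2 : K2 → ℂ := fun i => x i with hx2
  set B1 := Finset.univ.filter fun i : K2 => 1 / 25000 ≤ gi Z1 (inc h21 i) with hB1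
  set B2 := Finset.univ.filter fun i : K2 =>
    ∃ z ∈ Nf Z1 (inc h21 i), ((tg L x1 (inc h21 i) z : K1) : α) ∉ K2 with hB2
  have hsub : (Finset.univ.filter fun i : K2 => ¬ gd L x2 i) ⊆ B1 ∪ B2 := by
    intro i hi
    have hi' := (Finset.mem_filter.mp hi).2
    rw [Finset.mem_union]
    by_cases h : 1 / 25000 ≤ gi Z1 (inc h21 i)
    · left
      exact Finset.mem_filter.mpr ⟨Finset.mem_univ _, h⟩
    · right
      push Not at h
      exact Finset.mem_filter.mpr ⟨Finset.mem_univ _, bad_charge h21 hS1 hS2 hZ1 hZ2 hi' h⟩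
  have hn : (nbad L x2 : ℝ) ≤ B1.card + B2.card := by
    have h1 : nbad L x2 ≤ (B1 ∪ B2).card := by
      unfold nbad
      exact Finset.card_le_card (by convert hsub)
    have h2 := h1.trans (Finset.card_union_le _ _)
    exact_mod_cast h2
  have hb1 : (B1.card : ℝ) ≤ 25000 * gain Z1 := by
    have h1 : ∑ _i ∈ B1, (1 / 25000 : ℝ) ≤ ∑ i ∈ B1, gi Z1 (inc h21 i) :=
      Finset.sum_le_sum fun i hi => (Finset.mem_filter.mp hi).2
    have h2 : ∑ i ∈ B1, gi Z1 (inc h21 i) ≤ ∑ i : K2, gi Z1 (inc h21 i) :=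
      Finset.sum_le_sum_of_subset_of_nonneg (Finset.subset_univ _) fun i _ _ => gi_nonneg _
    have h3 := sum_inc_le h21 (gi Z1) gi_nonneg
    rw [sum_gi] at h3
    rw [Finset.sum_const, nsmul_eq_mul] at h1
    linarith
  have hb2 : (B2.card : ℝ) ≤ 8 * ((K1.card : ℝ) - K2.card) := by
    set R := Finset.univ.filter fun j : K1 => (j : α) ∉ K2 with hR
    have hRc : R.card + K2.card = K1.card := by
      have h1 : R.card = (K1 \ K2).card := by
        refine Finset.card_bij (fun j _ => (j : α)) ?_ ?_ ?_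
        · intro j hj
          exact Finset.mem_sdiff.mpr ⟨j.2, (Finset.mem_filter.mp hj).2⟩
        · intro a _ b _ h
          exact Subtype.ext h
        · intro b hb
          obtain ⟨h1, h2⟩ := Finset.mem_sdiff.mp hb
          exact ⟨⟨b, h1⟩, Finset.mem_filter.mpr ⟨Finset.mem_univ _, h2⟩, rfl⟩
      rw [h1, Finset.card_sdiff_add_card_eq_card h21]
    have hex : ∀ i ∈ B2, ∃ z ∈ Nf Z1 (inc h21 i), ((tg L x1 (inc h21 i) z : K1) : α) ∉ K2 :=
      fun i hi => (Finset.mem_filter.mp hi).2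
    choose! ζ hζ1 hζ2 using hex
    have hcard : B2.card ≤ (R.sigma fun j => Nf Z1 j).card := by
      refine Finset.card_le_card_of_injOn
        (fun i => ⟨tg L x1 (inc h21 i) (ζ i), -ζ i⟩) ?_ ?_
      · intro i hi
        have hi' : i ∈ B2 := hi
        have h1 := (mem_Nf hZ1).mp (hζ1 i hi')
        simp only [Finset.coe_sigma, Set.mem_sigma_iff, Finset.mem_coe]
        refine ⟨Finset.mem_filter.mpr ⟨Finset.mem_univ _, hζ2 i hi'⟩, ?_⟩
        rw [mem_Nf hZ1, norm_neg]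
        exact ⟨vec_neg (tg_spec h1.1), h1.2⟩
      · intro i hi i' hi' he
        have hi2 : i ∈ B2 := hi
        have hi2' : i' ∈ B2 := hi'
        have a := ((mem_Nf hZ1).mp (hζ1 i hi2)).1
        have a' := ((mem_Nf hZ1).mp (hζ1 i' hi2')).1
        simp only [Sigma.mk.injEq, heq_eq_eq, neg_inj] at he
        have b := hS1.tg_tg a
        have b' := hS1.tg_tg a'
        rw [he.1, he.2, b'] at b
        exact (inc_inj h21 b).symm
    have h8 : (R.sigma fun j => Nf Z1 j).card ≤ 8 * R.card := by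
      rw [Finset.card_sigma, mul_comm, ← smul_eq_mul, ← Finset.sum_const]
      refine Finset.sum_le_sum fun j _ => ?_
      exact card_le_eight (fun z hz => ((mem_Nf hZ1).mp hz).2.1)
        (fun z hz => ((mem_Nf hZ1).mp hz).2.2)
        (fun z hz w hw hne => hS1.sep2 ((mem_Nf hZ1).mp hz).1 ((mem_Nf hZ1).mp hw).1 hne)
    have h9 : (B2.card : ℝ) ≤ 8 * R.card := by exact_mod_cast hcard.trans h8
    have h10 : (R.card : ℝ) + K2.card = K1.card := by exact_mod_cast hRc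
    linarith
  linarith

include h21 hS2 hZ1 in
/-- **The deviations.** -/
theorem S2_le : S2 L (fun i : K2 => x i) ≤ 10 * gain Z1 := by
  classical
  have h3 := sum_inc_le h21 (gi Z1) gi_nonneg
  rw [sum_gi] at h3
  have h4 : S2 L (fun i : K2 => x i) ≤ ∑ i : K2, 10 * gi Z1 (inc h21 i) := by
    unfold S2
    rw [Fintype.sum_prod_type]
    refine Finset.sum_le_sum fun i _ => ?_
    have hg0 := gi_nonneg (Z1 := Z1) (inc h21 i)
    by_cases hg : gd L (fun i : K2 => x i) i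
    · have hmem : ∀ k, dd L (fun i : K2 => x i) (i, k) ∈ Nf Z1 (inc h21 i) := by
        intro k
        have h1 := (good_spec hg).mem k
        have h2 := abs_le.mp ((good_spec hg).near k)
        exact (mem_Nf hZ1).mpr ⟨vec_inc h21 h1, by linarith [h2.1], by linarith [h2.2]⟩
      have hinj : Function.Injective fun k => dd L (fun i : K2 => x i) (i, k) := (good_spec hg).inj
      have e1 : ∀ k, ee L (fun i : K2 => x i) (i, k) =
          (‖dd L (fun i : K2 => x i) (i, k)‖ ^ 2 - 3) ^ 2 := fun k => by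
        unfold ee
        rw [if_pos hg]
      have e2 : ∑ k, ee L (fun i : K2 => x i) (i, k) =
          ∑ z ∈ Finset.univ.image (fun k => dd L (fun i : K2 => x i) (i, k)),
            (‖z‖ ^ 2 - 3) ^ 2 := by
        rw [Finset.sum_image fun a _ b _ hab => hinj hab]
        exact Finset.sum_congr rfl fun k _ => e1 k
      have e3 : ∑ z ∈ Finset.univ.image (fun k => dd L (fun i : K2 => x i) (i, k)),
            (‖z‖ ^ 2 - 3) ^ 2 ≤ ∑ z ∈ Nf Z1 (inc h21 i), (‖z‖ ^ 2 - 3) ^ 2 := by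
        refine Finset.sum_le_sum_of_subset_of_nonneg ?_ fun _ _ _ => sq_nonneg _
        intro z hz
        obtain ⟨k, _, rfl⟩ := Finset.mem_image.mp hz
        exact hmem k
      have e4 : ∑ k, ee L (fun i : K2 => x i) (i, k) ≤ 24 / 10000 := by
        have : ∑ k, ee L (fun i : K2 => x i) (i, k) ≤ ∑ _k : Fin 6, (1 / 2500 : ℝ) := by
          refine Finset.sum_le_sum fun k _ => ?_
          rw [e1 k, ← sq_abs]
          have h2 : |‖dd L (fun i : K2 => x i) (i, k)‖ ^ 2 - 3| ≤ 1 / 50 := (good_spec hg).near k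
          have : |‖dd L (fun i : K2 => x i) (i, k)‖ ^ 2 - 3| ^ 2 ≤ (1 / 50) ^ 2 := by gcongr
          norm_num at this ⊢
          exact this
        refine this.trans (le_of_eq ?_)
        norm_num
      have hC : (0:ℝ) ≤ 1 / 250 * ((Cf Z1 (inc h21 i)).card : ℝ) := by positivity
      have hgi : gm (Nf Z1 (inc h21 i)) ≤ gi Z1 (inc h21 i) := by
        unfold gi
        linarith
      have h5 : ∑ k, ee L (fun i : K2 => x i) (i, k) ≤ 10 * gm (Nf Z1 (inc h21 i)) := by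
        unfold gm
        split_ifs
        · rw [e2]; linarith
        · rw [e2]; linarith
        · linarith
      linarith
    · have : ∑ k, ee L (fun i : K2 => x i) (i, k) = 0 := by
        refine Finset.sum_eq_zero fun k _ => ?_
        unfold ee
        rw [if_neg hg]
      rw [this]
      positivity
  rw [← Finset.mul_sum] at h4
  linarith

include h21 hS1 hZ1 hrem in
theorem card_diff_le : (K1.card : ℝ) - K2.card ≤ 1000 * gain Z1 := by
  classical
  set R := Finset.univ.filter fun j : K1 => (j : α) ∉ K2 with hR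
  have hRc : R.card + K2.card = K1.card := by
    have h1 : R.card = (K1 \ K2).card := by
      refine Finset.card_bij (fun j _ => (j : α)) ?_ ?_ ?_
      · intro j hj
        exact Finset.mem_sdiff.mpr ⟨j.2, (Finset.mem_filter.mp hj).2⟩
      · intro a _ b _ h
        exact Subtype.ext h
      · intro b hb
        obtain ⟨h1, h2⟩ := Finset.mem_sdiff.mp hb
        exact ⟨⟨b, h1⟩, Finset.mem_filter.mpr ⟨Finset.mem_univ _, h2⟩, rfl⟩
    rw [h1, Finset.card_sdiff_add_card_eq_card h21]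
  have h1 : ∑ _i ∈ R, (1 / 1000 : ℝ) ≤ ∑ i ∈ R, gi Z1 i :=
    Finset.sum_le_sum fun i hi => gi_removed hS1 hrem hZ1 (Finset.mem_filter.mp hi).2
  have h2 : ∑ i ∈ R, gi Z1 i ≤ ∑ i, gi Z1 i :=
    Finset.sum_le_sum_of_subset_of_nonneg (Finset.subset_univ _) fun i _ _ => gi_nonneg _
  rw [Finset.sum_const, nsmul_eq_mul] at h1
  rw [sum_gi] at h2
  have h10 : (R.card : ℝ) + K2.card = K1.card := by exact_mod_cast hRc
  linarith

include h21 hS1 hS2 hrem hZ1 hZ2 in
/-- **The defects are controlled by the gain.** -/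
theorem defects_le : ((K1.card : ℝ) - K2.card) + nbad L (fun i : K2 => x i) +
    S2 L (fun i : K2 => x i) ≤ 34010 * gain Z1 := by
  have h1 := card_diff_le h21 hS1 hrem hZ1
  have h2 := nbad_le h21 hS1 hS2 hrem hZ1 hZ2
  have h3 := S2_le h21 hS2 hZ1
  linarith

end

end Pool.Agent.H96.NU
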