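import Pool.Agent.H96.UO.Rigid
import Pool.Agent.H96.NU.Glob

/-!
# Exact optimality: the other shells
-/

set_option autoImplicit false
set_option linter.unusedSectionVars false

open Real Set
open Equiv (Perm)

namespace Pool.Agent.H96.NU

open Pool.Agent.H96.UO hiding first_shell

/-- steep potentials, in the normalisation where the hexagonal lattice has minimal distance `√3`;
the potential is `g (|x| ^ 2)` -/
structure Pt (g : ℝ → ℝ) (s : ℝ) : Prop where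
  pos : ∀ t, 0 < t → 0 ≤ g t
  tan3 : ∀ t, 0 < t → g 3 * exp (-(s * (t - 3))) ≤ g t
  tanq : ∀ q : ℕ, 3 ≤ q → ∃ s', 0 ≤ s' ∧ s' ≤ s ∧ ∀ t, 0 < t → g (3 * q) * (1 - s' * (t - 3 * q)) ≤ g t
  dec : ∀ q : ℕ, 3 ≤ q → g (3 * q) * (q : ℝ) ^ 28 ≤ g 3

theorem qn_ge_four {v : ℕ × ℕ} (h1 : 1 ≤ v.1) (h2 : v ≠ (1, 0)) (h3 : v ≠ (1, 1)) :
    4 ≤ qn v := by
  obtain ⟨m, n⟩ := v
  simp only [qn, ne_eq, Prod.mk.injEq] at *
  rcases Nat.eq_zero_or_pos n with h0 | h0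
  · have : 2 ≤ m := by omega
    subst h0
    nlinarith
  · rcases Nat.lt_or_ge m 2 with hm | hm
    · have : m = 1 := by omega
      subst this
      have : 2 ≤ n := by omega
      nlinarith
    · nlinarith

/-- the weight of a shell -/
theorem weight_le' {v : ℕ × ℕ} (h1 : 1 ≤ v.1) (h2 : v ≠ (1, 0)) (h3 : v ≠ (1, 1)) :
    ((v.1 + v.2 : ℕ) : ℝ) ^ 8 * 10 ^ 12 ≤
      (qn v : ℝ) ^ 28 * (1 / ((v.1 + 1 : ℝ) ^ 2 * (v.2 + 1 : ℝ) ^ 2)) := by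
  have h4 := (qn_ge h1 h2).2
  have h5 := qn_ge' v
  have h6 := qn_ge_four h1 h2 h3
  set S : ℝ := ((v.1 + v.2 : ℕ) : ℝ) with hS
  have hS2 : 2 ≤ S := by rw [hS]; exact_mod_cast h4
  set q : ℝ := (qn v : ℝ) with hq
  have hq4 : 4 ≤ q := by rw [hq]; exact_mod_cast h6
  have e1 : (v.1 + 1 : ℝ) * (v.2 + 1) ≤ S ^ 2 := by
    have : S = v.1 + v.2 := by rw [hS]; push_cast; ring
    rw [this] at hS2 ⊢
    nlinarith [sq_nonneg ((v.1:ℝ) - v.2)]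
  have e2 : (v.1 + 1 : ℝ) ^ 2 * (v.2 + 1 : ℝ) ^ 2 ≤ S ^ 4 := by
    have : (v.1 + 1 : ℝ) ^ 2 * (v.2 + 1 : ℝ) ^ 2 = ((v.1 + 1 : ℝ) * (v.2 + 1)) ^ 2 := by ring
    rw [this]
    calc ((v.1 + 1 : ℝ) * (v.2 + 1)) ^ 2 ≤ (S ^ 2) ^ 2 := by gcongr
      _ = S ^ 4 := by ring
  rw [mul_one_div, le_div_iff₀ (by positivity)]
  calc S ^ 8 * 10 ^ 12 * ((v.1 + 1 : ℝ) ^ 2 * (v.2 + 1 : ℝ) ^ 2) ≤ S ^ 8 * 10 ^ 12 * S ^ 4 := by gcongr
    _ = (S ^ 2) ^ 6 * 10 ^ 12 := by ring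
    _ ≤ (4 / 3 * q) ^ 6 * 10 ^ 12 := by
        have : S ^ 2 ≤ 4 / 3 * q := by linarith
        gcongr
    _ = q ^ 6 * ((4 / 3) ^ 6 * 10 ^ 12) := by ring
    _ ≤ q ^ 6 * 4 ^ 22 := by gcongr; norm_num
    _ ≤ q ^ 6 * q ^ 22 := by gcongr
    _ = q ^ 28 := by ring

theorem sum_tail_le' {g : ℝ → ℝ} {s : ℝ} (hg : Pt g s) (W : Finset (ℕ × ℕ))
    (hW : ∀ v ∈ W, 1 ≤ v.1 ∧ v ≠ (1, 0)) :
    ∑ v ∈ W, g (3 * qn v) * ((v.1 + v.2 : ℕ) : ℝ) ^ 8 ≤ g 3 * (152 / 10 ^ 13) := by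
  have hg3 : 0 ≤ g 3 := hg.pos 3 (by norm_num)
  calc ∑ v ∈ W, g (3 * qn v) * ((v.1 + v.2 : ℕ) : ℝ) ^ 8
      ≤ ∑ v ∈ W, (g 3 * (if v = (1, 1) then 112 / 10 ^ 13 else 0) +
          g 3 / 10 ^ 12 * (1 / (((v.1:ℝ) + 1) ^ 2 * ((v.2:ℝ) + 1) ^ 2))) := by
        refine Finset.sum_le_sum fun v hv => ?_
        obtain ⟨hv1, hv2⟩ := hW v hv
        have hq3 := (qn_ge hv1 hv2).1
        have hdec := hg.dec (qn v) hq3
        have hgq : 0 ≤ g (3 * qn v) := hg.pos _ (by positivity)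
        have hwt : 0 ≤ 1 / (((v.1:ℝ) + 1) ^ 2 * ((v.2:ℝ) + 1) ^ 2) := by positivity
        by_cases h11 : v = (1, 1)
        · rw [if_pos h11]
          have e1 : (qn v : ℝ) = 3 := by rw [h11]; norm_num [qn]
          have e2 : ((v.1 + v.2 : ℕ) : ℝ) = 2 := by rw [h11]; norm_num
          rw [e1] at hdec hgq ⊢
          rw [e2]
          have h5 : g (3 * 3) * 2 ^ 8 ≤ g 3 * (112 / 10 ^ 13) := by
            have : g (3 * 3) ≤ g 3 / 3 ^ 28 := by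
              rw [le_div_iff₀ (by positivity)]
              exact hdec
            calc g (3 * 3) * 2 ^ 8 ≤ g 3 / 3 ^ 28 * 2 ^ 8 := by gcongr
              _ = g 3 * (2 ^ 8 / 3 ^ 28) := by ring
              _ ≤ g 3 * (112 / 10 ^ 13) := by
                  refine mul_le_mul_of_nonneg_left ?_ hg3
                  norm_num
          have h6 : 0 ≤ g 3 / 10 ^ 12 * (1 / (((v.1:ℝ) + 1) ^ 2 * ((v.2:ℝ) + 1) ^ 2)) := by
            positivity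
          linarith
        · rw [if_neg h11, mul_zero, zero_add]
          have hw := weight_le' hv1 hv2 h11
          have a1 := mul_le_mul_of_nonneg_left hw hgq
          have a2 := mul_le_mul_of_nonneg_right hdec hwt
          rw [div_mul_eq_mul_div, le_div_iff₀ (by positivity)]
          calc g (3 * qn v) * ((v.1 + v.2 : ℕ) : ℝ) ^ 8 * 10 ^ 12
              = g (3 * qn v) * (((v.1 + v.2 : ℕ) : ℝ) ^ 8 * 10 ^ 12) := by ring
            _ ≤ _ := a1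
            _ = g (3 * qn v) * (qn v : ℝ) ^ 28 *
                (1 / (((v.1:ℝ) + 1) ^ 2 * ((v.2:ℝ) + 1) ^ 2)) := by ring
            _ ≤ _ := a2
    _ = g 3 * ∑ v ∈ W, (if v = (1, 1) then (112:ℝ) / 10 ^ 13 else 0) +
        g 3 / 10 ^ 12 * ∑ v ∈ W, 1 / (((v.1:ℝ) + 1) ^ 2 * ((v.2:ℝ) + 1) ^ 2) := by
        rw [Finset.sum_add_distrib, Finset.mul_sum, Finset.mul_sum]
    _ ≤ g 3 * (112 / 10 ^ 13) + g 3 / 10 ^ 12 * 4 := by
        have := sum_weights W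
        have h7 : ∑ v ∈ W, (if v = (1, 1) then (112:ℝ) / 10 ^ 13 else 0) ≤ 112 / 10 ^ 13 := by
          rw [Finset.sum_ite_eq']
          split_ifs
          · exact le_rfl
          · norm_num
        gcongr
    _ = _ := by ring

section

variable {ι : Type*} [Fintype ι] [DecidableEq ι] {L : Submodule ℤ ℂ} [DiscreteTopology L]
  [IsZLattice ℝ L] {x : ι → ℂ}
  (hS : Sep L x) {Z : ι → Finset ℂ}
  (hZ : ∀ i z, z ∈ Z i ↔ z ∈ Vec L x i ∧ z ≠ 0 ∧ ‖z‖ < 2)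
  {N : ℝ} (hN : ZLattice.covolume L = N * (3 * √3 / 2)) (hN1 : (Fintype.card ι : ℝ) ≤ N)
  {τ : Perm (ι × Fin 6)} (hτ : ∀ f, Dom L x f → τ f = nx L x f)

include hS hZ hN hN1 hτ

/-- **One shell.** -/
theorem shell' {g : ℝ → ℝ} {s : ℝ} (hg : Pt g s) (hs : 6 ≤ s) {v : ℕ × ℕ} (h1 : 1 ≤ v.1)
    (h2 : v ≠ (1, 0)) :
    g (3 * qn v) * (6 * N - 1050000 * s * ((v.1 + v.2 : ℕ) : ℝ) ^ 8 *
      ((N - Fintype.card ι) + nbad L x + S2 L x)) ≤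
      ∑ f ∈ RS L x τ v, g (‖dsp (V (sg ι) τ (dd L x) v.1 v.2) f‖ ^ 2) := by
  obtain ⟨hq3, hS2'⟩ := qn_ge h1 h2
  obtain ⟨s', hs0, hs1, htan⟩ := hg.tanq (qn v) hq3
  have hcard := card_RS hS hZ hτ h1 (v := v)
  have hqS := qn_le v
  have hDD := DD_V_le (sg ι) τ (dd L x) (rel_one hS hτ) (rel_two hS hτ) norm_dd_le v.1 v.2
  have hdd := sum_dd_le hS hZ hN
  have hdom : (ndom L x : ℝ) ≤ 12 * nbad L x := by exact_mod_cast ndom_le hS hZ
  have hgq : 0 ≤ g (3 * qn v) := hg.pos _ (by positivity)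
  have hR : ∑ f ∈ RS L x τ v, ‖dsp (V (sg ι) τ (dd L x) v.1 v.2) f‖ ^ 2 ≤
      DD (V (sg ι) τ (dd L x) v.1 v.2) :=
    Finset.sum_le_sum_of_subset_of_nonneg (Finset.subset_univ _) fun _ _ _ => by positivity
  have hsum : g (3 * qn v) * ((RS L x τ v).card * (1 + 3 * qn v * s') -
      s' * ∑ f ∈ RS L x τ v, ‖dsp (V (sg ι) τ (dd L x) v.1 v.2) f‖ ^ 2) ≤
      ∑ f ∈ RS L x τ v, g (‖dsp (V (sg ι) τ (dd L x) v.1 v.2) f‖ ^ 2) := by
    have : ∑ f ∈ RS L x τ v, g (3 * qn v) *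
        (1 - s' * (‖dsp (V (sg ι) τ (dd L x) v.1 v.2) f‖ ^ 2 - 3 * qn v)) ≤
        ∑ f ∈ RS L x τ v, g (‖dsp (V (sg ι) τ (dd L x) v.1 v.2) f‖ ^ 2) := by
      refine Finset.sum_le_sum fun f hf => htan _ ?_
      have := RS_far hτ h1 h2 hf
      positivity
    refine le_trans (le_of_eq ?_) this
    rw [← Finset.mul_sum, Finset.sum_sub_distrib, ← Finset.mul_sum, Finset.sum_sub_distrib,
      Finset.sum_const, Finset.sum_const]
    simp only [nsmul_eq_mul]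
    ring
  refine le_trans ?_ hsum
  refine mul_le_mul_of_nonneg_left ?_ hgq
  have hnb : (0:ℝ) ≤ nbad L x := by positivity
  have hS2n := S2_nonneg L x
  set S : ℝ := ((v.1 + v.2 : ℕ) : ℝ) with hSd
  have hSe : (v.1:ℝ) + v.2 = S := by rw [hSd]; push_cast; ring
  have hS2 : 2 ≤ S := by rw [hSd]; exact_mod_cast hS2'
  set q : ℝ := (qn v : ℝ) with hqd
  have hqe : (v.1:ℝ) ^ 2 + v.1 * v.2 + v.2 ^ 2 = q := by rw [hqd]; unfold qn; push_cast; ring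
  rw [hqe, hSe] at hDD
  have hq0 : 0 ≤ q := by positivity
  set n0 : ℝ := (Fintype.card ι : ℝ) with hn0
  set nb : ℝ := (nbad L x : ℝ)
  set e2 : ℝ := S2 L x
  set D0 := ∑ f, ‖dd L x f‖ ^ 2
  set Θ : ℝ := (N - n0) + nb + e2 with hΘ
  have hm' : 0 ≤ N - n0 := by linarith
  have hΘ0 : 0 ≤ Θ := by positivity
  have p5 : S ^ 5 ≤ S ^ 8 := pow_le_pow_right₀ (by linarith) (by norm_num)
  have p7 : S ^ 7 ≤ S ^ 8 := pow_le_pow_right₀ (by linarith) (by norm_num)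
  have p2 : S ^ 2 ≤ S ^ 8 := pow_le_pow_right₀ (by linarith) (by norm_num)
  have p0 : 1 ≤ S ^ 8 := one_le_pow₀ (by linarith)
  have hsS : 0 ≤ s * S ^ 8 := by positivity
  have hDD' : DD (V (sg ι) τ (dd L x) v.1 v.2) ≤ q * (18 * n0 + 18 * (N - n0) + e2) +
      264 * nb * S ^ 8 := by
    refine hDD.trans ?_
    have a1 : q * D0 ≤ q * (18 * n0 + 18 * (N - n0) + e2) := mul_le_mul_of_nonneg_left hdd hq0
    have a2 : 11 * ((2 * ndom L x : ℕ) : ℝ) * S ^ 8 ≤ 264 * nb * S ^ 8 := by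
      refine mul_le_mul_of_nonneg_right ?_ (by positivity)
      push_cast
      linarith
    linarith
  have hlow : (6 * n0 - 330000 * S ^ 5 * (nb + e2)) * (1 + 3 * q * s') -
      s' * (q * (18 * n0 + 18 * (N - n0) + e2) + 264 * nb * S ^ 8) ≤
      (RS L x τ v).card * (1 + 3 * q * s') -
      s' * ∑ f ∈ RS L x τ v, ‖dsp (V (sg ι) τ (dd L x) v.1 v.2) f‖ ^ 2 := by
    have b1 : (6 * n0 - 330000 * S ^ 5 * (nb + e2)) * (1 + 3 * q * s') ≤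
        (RS L x τ v).card * (1 + 3 * q * s') :=
      mul_le_mul_of_nonneg_right hcard (by positivity)
    have b2 : s' * ∑ f ∈ RS L x τ v, ‖dsp (V (sg ι) τ (dd L x) v.1 v.2) f‖ ^ 2 ≤
        s' * (q * (18 * n0 + 18 * (N - n0) + e2) + 264 * nb * S ^ 8) :=
      mul_le_mul_of_nonneg_left (hR.trans hDD') hs0
    linarith
  refine le_trans ?_ hlow
  have c1 : 330000 * S ^ 5 * (nb + e2) ≤ 330000 * S ^ 8 * Θ := by
    have : nb + e2 ≤ Θ := by rw [hΘ]; linarith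
    gcongr
  have c1' : 330000 * S ^ 8 * Θ ≤ 55000 * s * S ^ 8 * Θ := by
    have : (330000:ℝ) ≤ 55000 * s := by linarith
    gcongr
  have c2 : 3 * q * s' * (330000 * S ^ 5 * (nb + e2)) ≤ 990000 * s * S ^ 8 * Θ := by
    have t1 : 330000 * S ^ 5 * (nb + e2) ≤ 330000 * S ^ 5 * Θ := by
      have : nb + e2 ≤ Θ := by rw [hΘ]; linarith
      gcongr
    calc 3 * q * s' * (330000 * S ^ 5 * (nb + e2)) ≤ 3 * S ^ 2 * s * (330000 * S ^ 5 * Θ) := by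
          gcongr
      _ = 990000 * s * S ^ 7 * Θ := by ring
      _ ≤ 990000 * s * S ^ 8 * Θ := by gcongr
  have c3 : s' * (q * (18 * (N - n0) + e2)) ≤ 18 * s * S ^ 8 * Θ := by
    have t1 : 18 * (N - n0) + e2 ≤ 18 * Θ := by rw [hΘ]; linarith
    calc s' * (q * (18 * (N - n0) + e2)) ≤ s * (S ^ 2 * (18 * Θ)) := by gcongr
      _ = 18 * s * S ^ 2 * Θ := by ring
      _ ≤ 18 * s * S ^ 8 * Θ := by gcongr
  have c4 : s' * (264 * nb * S ^ 8) ≤ 264 * s * S ^ 8 * Θ := by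
    have t1 : nb ≤ Θ := by rw [hΘ]; linarith
    calc s' * (264 * nb * S ^ 8) ≤ s * (264 * Θ * S ^ 8) := by gcongr
      _ = _ := by ring
  have c5 : 6 * (N - n0) ≤ s * S ^ 8 * Θ := by
    have t1 : N - n0 ≤ Θ := by rw [hΘ]; linarith
    have t2 : 6 * Θ ≤ s * S ^ 8 * Θ := by
      refine mul_le_mul_of_nonneg_right ?_ hΘ0
      nlinarith
    linarith
  have expand : (6 * n0 - 330000 * S ^ 5 * (nb + e2)) * (1 + 3 * q * s') -
      s' * (q * (18 * n0 + 18 * (N - n0) + e2) + 264 * nb * S ^ 8) =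
      6 * N - 6 * (N - n0) - 330000 * S ^ 5 * (nb + e2) -
        3 * q * s' * (330000 * S ^ 5 * (nb + e2)) - s' * (q * (18 * (N - n0) + e2)) -
        s' * (264 * nb * S ^ 8) := by ring
  rw [expand]
  have : 1050000 * s * S ^ 8 * Θ = 55000 * s * S ^ 8 * Θ + 990000 * s * S ^ 8 * Θ +
      18 * s * S ^ 8 * Θ + 264 * s * S ^ 8 * Θ + s * S ^ 8 * Θ + 4717 * (s * S ^ 8 * Θ) := by ring
  have h0 : 0 ≤ s * S ^ 8 * Θ := by positivity
  linarith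

end

end Pool.Agent.H96.NU
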